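import Mathlib

open Finset Polynomial

namespace Pool.Agent.Helper96.Flow

variable {V E : Type} [Fintype V] [DecidableEq V] [Fintype E] [DecidableEq E]

/-- Kirchhoff's law for a map on the edges of the multigraph given by src and tgt. -/
def IsFlow (src tgt : E → V) (k : ℕ) (f : E → ZMod k) : Prop :=
  ∀ v : V, ∑ e ∈ univ.filter (fun e => tgt e = v), f e
    = ∑ e ∈ univ.filter (fun e => src e = v), f e

/-- nowhere-zero flows with values in ZMod k. -/
def IsNZFlow (src tgt : E → V) (k : ℕ) (f : E → ZMod k) : Prop :=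
  (∀ e, f e ≠ 0) ∧ IsFlow src tgt k f

/-- the number of nowhere-zero flows with values in ZMod k. -/
noncomputable def numNZ (src tgt : E → V) (k : ℕ) : ℕ :=
  Nat.card {f : E → ZMod k // IsNZFlow src tgt k f}

theorem addChar_sum {A ι : Type*} [AddCommMonoid A] (ψ : AddChar A ℂ) (s : Finset ι)
    (f : ι → A) : ψ (∑ i ∈ s, f i) = ∏ i ∈ s, ψ (f i) := by
  classical
  induction s using Finset.induction_on with
  | empty => simp
  | insert a s ha ih => rw [Finset.sum_insert ha, Finset.prod_insert ha, AddChar.map_add_eq_mul, ih]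

omit [DecidableEq E] in
theorem regroup (p : E → V) (k : ℕ) (f : E → ZMod k) (s : V → ZMod k) :
    ∑ e, f e * s (p e) = ∑ v, s v * ∑ e ∈ univ.filter (fun e => p e = v), f e := by
  have h1 : ∀ v, s v * ∑ e ∈ univ.filter (fun e => p e = v), f e =
      ∑ e ∈ univ.filter (fun e => p e = v), f e * s (p e) := by
    intro v
    rw [Finset.mul_sum]
    refine Finset.sum_congr rfl fun e he => ?_
    rw [(Finset.mem_filter.1 he).2, mul_comm]
  simp only [h1]
  exact (Finset.sum_fiberwise univ p (fun e => f e * s (p e))).symm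

/-- Potts model formula. -/
theorem potts (src tgt : E → V) (k : ℕ) (hk : 1 ≤ k) :
    (k : ℤ) ^ Fintype.card V * (numNZ src tgt k : ℤ)
      = ∑ σ : V → Fin k, ∏ e : E, ((if σ (src e) = σ (tgt e) then (k : ℤ) else 0) - 1) := by
  classical
  obtain ⟨n, rfl⟩ : ∃ n, k = n + 1 := ⟨k - 1, by omega⟩
  have hprim := ZMod.isPrimitive_stdAddChar (n + 1)
  obtain ⟨ψ, hψ⟩ : ∃ ψ : AddChar (ZMod (n + 1)) ℂ, ψ = ZMod.stdAddChar := ⟨_, rfl⟩
  rw [← hψ] at hprim
  have hcard : Fintype.card (ZMod (n + 1)) = n + 1 := ZMod.card (n + 1)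
  have hprod : ∀ s : V → ZMod (n + 1),
      ∏ e : E, ((if s (src e) = s (tgt e) then (((n + 1 : ℕ) : ℤ) : ℂ) else 0) - 1) =
      ∑ f ∈ Fintype.piFinset (fun _ : E => (univ.erase (0 : ZMod (n + 1)))),
        ∏ e, ψ (f e * (s (tgt e) - s (src e))) := by
    intro s
    rw [← Finset.prod_univ_sum (fun _ : E => univ.erase (0 : ZMod (n + 1)))
      (fun e a => ψ (a * (s (tgt e) - s (src e))))]
    refine Finset.prod_congr rfl fun e _ => ?_
    have h1 := AddChar.sum_mulShift (s (tgt e) - s (src e)) hprim
    rw [← Finset.add_sum_erase _ _ (Finset.mem_univ (0 : ZMod (n + 1))), zero_mul,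
      AddChar.map_zero_eq_one, hcard] at h1
    have h2 : (s (tgt e) - s (src e) = 0) ↔ s (src e) = s (tgt e) := by
      rw [sub_eq_zero]
      exact eq_comm
    simp only [h2] at h1
    rw [eq_sub_iff_add_eq'.2 h1]
    split_ifs <;> push_cast <;> ring
  have hinner : ∀ f : E → ZMod (n + 1),
      ∑ s : V → ZMod (n + 1), ∏ e, ψ (f e * (s (tgt e) - s (src e))) =
      if IsFlow src tgt (n + 1) f then (((n + 1 : ℕ) : ℂ)) ^ Fintype.card V else 0 := by
    intro f
    have h1 : ∀ s : V → ZMod (n + 1), ∏ e, ψ (f e * (s (tgt e) - s (src e))) =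
        ∏ v, ψ (s v * (∑ e ∈ univ.filter (fun e => tgt e = v), f e -
          ∑ e ∈ univ.filter (fun e => src e = v), f e)) := by
      intro s
      rw [← addChar_sum, ← addChar_sum]
      congr 1
      simp only [mul_sub, Finset.sum_sub_distrib, regroup]
    simp only [h1]
    have h2 := Finset.prod_univ_sum (fun _ : V => (univ : Finset (ZMod (n + 1))))
      (fun v x => ψ (x * (∑ e ∈ univ.filter (fun e => tgt e = v), f e -
          ∑ e ∈ univ.filter (fun e => src e = v), f e)))
    rw [Fintype.piFinset_univ] at h2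
    rw [← h2]
    simp only [AddChar.sum_mulShift _ hprim, hcard, sub_eq_zero]
    split_ifs with h3
    · rw [Finset.prod_congr rfl (fun v _ => by rw [if_pos (h3 v)])]
      rw [Finset.prod_const, Finset.card_univ]
    · unfold IsFlow at h3
      push Not at h3
      obtain ⟨v, hv⟩ := h3
      apply Finset.prod_eq_zero (Finset.mem_univ v)
      rw [if_neg hv]
      simp
  have hnum : (numNZ src tgt (n + 1) : ℂ) =
      ∑ f ∈ Fintype.piFinset (fun _ : E => (univ.erase (0 : ZMod (n + 1)))),
        if IsFlow src tgt (n + 1) f then (1 : ℂ) else 0 := by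
    unfold numNZ
    rw [Nat.card_eq_fintype_card, Fintype.card_subtype, Finset.sum_ite, Finset.sum_const_zero,
      add_zero, Finset.sum_const, nsmul_eq_mul, mul_one]
    congr 2
    apply Finset.ext
    intro f
    rw [Finset.mem_filter, Finset.mem_filter]
    simp only [Finset.mem_univ, true_and, Fintype.mem_piFinset, Finset.mem_erase, and_true, IsNZFlow]
  have hmain : (((n + 1 : ℕ) : ℂ)) ^ Fintype.card V * (numNZ src tgt (n + 1) : ℂ) =
      ∑ s : V → ZMod (n + 1),
        ∏ e : E, ((if s (src e) = s (tgt e) then (((n + 1 : ℕ) : ℤ) : ℂ) else 0) - 1) := by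
    simp only [hprod]
    rw [Finset.sum_comm]
    simp only [hinner]
    rw [hnum, Finset.mul_sum]
    refine Finset.sum_congr rfl fun f _ => ?_
    split_ifs <;> simp
  have hcast : (((((n + 1 : ℕ) : ℤ)) ^ Fintype.card V * (numNZ src tgt (n + 1) : ℤ) : ℤ) : ℂ) =
      ((∑ s : V → ZMod (n + 1),
        ∏ e : E, ((if s (src e) = s (tgt e) then (((n + 1 : ℕ) : ℤ)) else 0) - 1) : ℤ) : ℂ) := by
    push_cast
    push_cast at hmain
    rw [hmain]
  exact_mod_cast hcast

/-- functions constant on the edges in `A` -/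
theorem count_const (src tgt : E → V) (A : Finset E) (X : Type) [Finite X] :
    Nat.card {s : V → X // ∀ e ∈ A, s (src e) = s (tgt e)} =
      Nat.card X ^ Nat.card (Quot (fun v w : V => ∃ e ∈ A, src e = v ∧ tgt e = w)) := by
  classical
  have e1 : {s : V → X // ∀ e ∈ A, s (src e) = s (tgt e)} ≃
      (Quot (fun v w : V => ∃ e ∈ A, src e = v ∧ tgt e = w) → X) :=
    { toFun := fun s => Quot.lift s.1 (by
        rintro v w ⟨e, he, rfl, rfl⟩
        exact s.2 e he)
      invFun := fun g => ⟨fun v => g (Quot.mk _ v), fun e he => by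
        exact congrArg g
          (Quot.sound (r := fun v w : V => ∃ e ∈ A, src e = v ∧ tgt e = w) ⟨e, he, rfl, rfl⟩)⟩
      left_inv := fun s => rfl
      right_inv := fun g => by
        funext q
        induction q using Quot.ind
        rfl }
  rw [Nat.card_congr e1, Nat.card_fun]

theorem rank_bound (src tgt : E → V) (A : Finset E) :
    Fintype.card V ≤ A.card +
      Nat.card (Quot (fun v w : V => ∃ e ∈ A, src e = v ∧ tgt e = w)) := by
  classical
  let φ : (V → ZMod 2) →ₗ[ZMod 2] (A → ZMod 2) :=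
    { toFun := fun s e => s (src e) - s (tgt e)
      map_add' := by
        intro s t
        funext e
        simp
        ring
      map_smul' := by
        intro c s
        funext e
        simp
        ring }
  have h1 := LinearMap.finrank_range_add_finrank_ker φ
  rw [Module.finrank_fintype_fun_eq_card] at h1
  have h2 : Module.finrank (ZMod 2) (LinearMap.range φ) ≤ A.card := by
    have := Submodule.finrank_le (LinearMap.range φ)
    rwa [Module.finrank_fintype_fun_eq_card, Fintype.card_coe] at this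
  have h3 : Nat.card (LinearMap.ker φ) = 2 ^ Module.finrank (ZMod 2) (LinearMap.ker φ) := by
    rw [Module.natCard_eq_pow_finrank (K := ZMod 2), Nat.card_zmod]
  have h4 : Nat.card (LinearMap.ker φ) =
      Nat.card {s : V → ZMod 2 // ∀ e ∈ A, s (src e) = s (tgt e)} := by
    apply Nat.card_congr
    apply Equiv.subtypeEquivRight
    intro s
    rw [LinearMap.mem_ker]
    constructor
    · intro h e he
      have := congrFun h ⟨e, he⟩
      exact sub_eq_zero.1 this
    · intro h
      funext e
      exact sub_eq_zero.2 (h e.1 e.2)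
  rw [count_const, Nat.card_zmod, h3] at h4
  have h5 := Nat.pow_right_injective le_rfl h4
  omega

/-- existence of the flow polynomial. -/
theorem exists_flowPoly (src tgt : E → V) :
    ∃ Q : ℤ[X], ∀ k : ℕ, 1 ≤ k → Q.eval (k : ℤ) = (numNZ src tgt k : ℤ) := by
  classical
  refine ⟨∑ A ∈ (univ : Finset E).powerset, C ((-1 : ℤ) ^ (univ \ A).card) *
    X ^ (A.card + Nat.card (Quot (fun v w : V => ∃ e ∈ A, src e = v ∧ tgt e = w)) -
      Fintype.card V), ?_⟩
  intro k hk
  have hk0 : (k : ℤ) ^ Fintype.card V ≠ 0 := by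
    apply pow_ne_zero
    exact_mod_cast (by omega : k ≠ 0)
  apply mul_left_cancel₀ hk0
  rw [potts src tgt k hk, eval_finsetSum, Finset.mul_sum]
  have h1 : ∀ σ : V → Fin k, ∏ e : E, ((if σ (src e) = σ (tgt e) then (k : ℤ) else 0) - 1) =
      ∑ A ∈ (univ : Finset E).powerset, (if ∀ e ∈ A, σ (src e) = σ (tgt e) then
        (k : ℤ) ^ A.card * (-1) ^ (univ \ A).card else 0) := by
    intro σ
    simp only [sub_eq_add_neg]
    rw [Finset.prod_add]
    refine Finset.sum_congr rfl fun A _ => ?_
    rw [Finset.prod_const]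
    split_ifs with h
    · rw [Finset.prod_congr rfl (fun e he => by rw [if_pos (h e he)]), Finset.prod_const]
    · push Not at h
      obtain ⟨e, he, hne⟩ := h
      rw [Finset.prod_eq_zero he (by rw [if_neg hne]), zero_mul]
  simp only [h1]
  rw [Finset.sum_comm]
  refine Finset.sum_congr rfl fun A _ => ?_
  have h2 := rank_bound src tgt A
  have h3 := count_const src tgt A (Fin k)
  rw [Nat.card_eq_fintype_card, Fintype.card_subtype, Nat.card_fin] at h3
  rw [Finset.sum_ite, Finset.sum_const_zero, add_zero, Finset.sum_const, nsmul_eq_mul, h3,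
    eval_mul, eval_C, eval_pow, eval_X]
  generalize Nat.card (Quot (fun v w : V => ∃ e ∈ A, src e = v ∧ tgt e = w)) = c at *
  obtain ⟨d, hd⟩ : ∃ d, A.card + c = Fintype.card V + d := ⟨A.card + c - Fintype.card V, by omega⟩
  rw [show A.card + c - Fintype.card V = d by omega]
  push_cast
  symm
  calc (k : ℤ) ^ c * ((k : ℤ) ^ A.card * (-1) ^ (univ \ A).card)
      = (k : ℤ) ^ (A.card + c) * (-1) ^ (univ \ A).card := by rw [pow_add]; ring
    _ = _ := by rw [hd, pow_add]; ring

end Pool.Agent.Helper96.Flow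

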