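import Mathlib

open PowerSeries Finset

namespace Pool.Agent.Helper96.Flow

/-- the power series (1 - 12 z)^(-1/2). -/
noncomputable def om : PowerSeries ℚ := PowerSeries.mk (fun j => (Nat.centralBinom j : ℚ) * 3 ^ j)

theorem om_coeff (j : ℕ) : coeff j om = (Nat.centralBinom j : ℚ) * 3 ^ j := by
  rw [om, coeff_mk]

theorem om_const : constantCoeff om = 1 := by
  rw [← coeff_zero_eq_constantCoeff_apply, om_coeff]; simp

theorem om_deriv : (1 - C (12 : ℚ) * X) * d⁄dX ℚ om = C (6 : ℚ) * om := by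
  ext n
  rw [sub_mul, one_mul, map_sub, mul_assoc, coeff_C_mul, coeff_C_mul, coeff_derivative, om_coeff, om_coeff]
  rcases n with _ | n
  · rw [coeff_zero_X_mul]
    simp [Nat.centralBinom]; norm_num [Nat.choose]
  · rw [coeff_succ_X_mul, coeff_derivative, om_coeff]
    have h := Nat.succ_mul_centralBinom_succ (n + 1)
    have h' : ((n : ℚ) + 1 + 1) * (Nat.centralBinom (n + 1 + 1) : ℚ)
        = 2 * (2 * ((n : ℚ) + 1) + 1) * (Nat.centralBinom (n + 1) : ℚ) := by exact_mod_cast h
    push_cast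
    rw [pow_succ (3 : ℚ) (n + 1)]
    linear_combination (3 : ℚ) ^ (n + 1) * 3 * h'

theorem om_sq : om ^ 2 * (1 - C (12 : ℚ) * X) = 1 := by
  apply PowerSeries.derivative.ext
  · rw [Derivation.leibniz, derivative_pow]
    simp only [map_sub, Derivation.leibniz, derivative_one, derivative_C, derivative_X, smul_eq_mul]
    have h := om_deriv
    have e : om ^ 2 * (0 - (C (12 : ℚ) * 1 + X * 0)) + (1 - C (12 : ℚ) * X) * (((2 : ℕ) : PowerSeries ℚ) * om ^ (2 - 1) * d⁄dX ℚ om)
        = om * (2 * ((1 - C (12 : ℚ) * X) * d⁄dX ℚ om) - C (12 : ℚ) * om) := by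
      simp; ring
    rw [e, h]
    have : (C (12 : ℚ) : PowerSeries ℚ) = 2 * C (6 : ℚ) := by
      rw [show (12 : ℚ) = 2 * 6 by norm_num, map_mul, map_ofNat]
    rw [this]; ring
  · rw [map_mul, map_pow, om_const]; simp

theorem om_deriv2 : d⁄dX ℚ om = C (6 : ℚ) * om ^ 3 := by
  have h := om_deriv
  have h2 := om_sq
  calc d⁄dX ℚ om = (om ^ 2 * (1 - C (12 : ℚ) * X)) * d⁄dX ℚ om := by rw [h2, one_mul]
    _ = om ^ 2 * ((1 - C (12 : ℚ) * X) * d⁄dX ℚ om) := by ring
    _ = om ^ 2 * (C (6 : ℚ) * om) := by rw [h]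
    _ = C (6 : ℚ) * om ^ 3 := by ring

/-- the series of Gaussian moments. -/
noncomputable def theta (a : ℕ) : PowerSeries ℚ :=
  PowerSeries.mk (fun u => 3 ^ u / (u.factorial : ℚ) * ((2 * u + 2 * a).factorial : ℚ) / ((u + a).factorial : ℚ))

theorem theta_deriv (a : ℕ) : d⁄dX ℚ (theta a) = C (3 : ℚ) * theta (a + 1) := by
  ext u
  rw [coeff_derivative, coeff_C_mul, theta, theta, coeff_mk, coeff_mk]
  have h1 : 2 * (u + 1) + 2 * a = 2 * u + 2 * (a + 1) := by ring
  have h2 : u + 1 + a = u + (a + 1) := by ring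
  rw [h1, h2, Nat.factorial_succ, pow_succ]
  have : (u.factorial : ℚ) ≠ 0 := by positivity
  push_cast
  field_simp

theorem theta_eq (a : ℕ) :
    theta a = C (((2 * a).factorial : ℚ) / (a.factorial : ℚ)) * om ^ (2 * a + 1) := by
  induction a with
  | zero =>
    ext u
    rw [theta, coeff_mk, coeff_C_mul]
    simp only [mul_zero, Nat.factorial_zero, zero_add, pow_one, om_coeff, add_zero, Nat.cast_one, div_one, one_mul]
    rw [Nat.centralBinom, Nat.choose_eq_factorial_div_factorial (by omega)]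
    have h : u.factorial * (2 * u - u).factorial ∣ (2 * u).factorial :=
      Nat.factorial_mul_factorial_dvd_factorial (by omega)
    rw [Nat.cast_div h (by positivity)]
    have : 2 * u - u = u := by omega
    rw [this]
    have : (u.factorial : ℚ) ≠ 0 := by positivity
    push_cast
    field_simp
  | succ a ih =>
    have h := theta_deriv a
    rw [ih, Derivation.leibniz, derivative_C, derivative_pow, om_deriv2] at h
    have h3 : C (1 / 3 : ℚ) * (C (3 : ℚ) * theta (a + 1)) = theta (a + 1) := by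
      rw [← mul_assoc, ← map_mul]; norm_num
    rw [← h3, ← h]
    have hf : ((2 * (a + 1)).factorial : ℚ) / ((a + 1).factorial : ℚ)
        = ((2 * a).factorial : ℚ) / (a.factorial : ℚ) * (2 * (2 * a + 1)) := by
      have h4 : (2 * (a + 1)).factorial = (2 * a + 2) * ((2 * a + 1) * (2 * a).factorial) := by
        have : 2 * (a + 1) = (2 * a + 1) + 1 := by ring
        rw [this, Nat.factorial_succ, Nat.factorial_succ]
      rw [h4, Nat.factorial_succ]
      have hk : (a.factorial : ℚ) ≠ 0 := by positivity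
      push_cast
      field_simp
    rw [hf]
    simp only [smul_eq_mul, mul_zero, add_zero, Nat.add_sub_cancel]
    have h5 : ((2 * a + 1 : ℕ) : PowerSeries ℚ) = C ((2 * a + 1 : ℚ)) := by
      rw [map_add, map_mul, map_natCast, map_ofNat, map_one]; push_cast; ring
    rw [h5, map_mul (C (R := ℚ)) _ (2 * (2 * (a : ℚ) + 1)), map_mul (C (R := ℚ)) 2]
    have h6 : (C (1 / 3 : ℚ) : PowerSeries ℚ) * C (6 : ℚ) = C (2 : ℚ) := by
      rw [← map_mul]; norm_num
    calc C (1 / 3 : ℚ) * (C (((2 * a).factorial : ℚ) / (a.factorial : ℚ)) * (C (2 * (a : ℚ) + 1) * om ^ (2 * a) * (C (6 : ℚ) * om ^ 3)))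
        = (C (1 / 3 : ℚ) * C (6 : ℚ)) * (C (((2 * a).factorial : ℚ) / (a.factorial : ℚ)) * (C (2 * (a : ℚ) + 1) * om ^ (2 * a) * om ^ 3)) := by ring
      _ = _ := by rw [h6]; ring

theorem om_sq_rescale : om ^ 2 = rescale (12 : ℚ) (mk 1) := by
  have h : rescale (12 : ℚ) (mk 1) * (1 - C (12 : ℚ) * X) = 1 := by
    have := congrArg (rescale (12 : ℚ)) (mk_one_mul_one_sub_eq_one ℚ)
    rw [map_mul, map_sub, map_one, rescale_X] at this
    exact this
  calc om ^ 2 = om ^ 2 * (rescale (12 : ℚ) (mk 1) * (1 - C (12 : ℚ) * X)) := by rw [h, mul_one]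
    _ = (om ^ 2 * (1 - C (12 : ℚ) * X)) * rescale (12 : ℚ) (mk 1) := by ring
    _ = _ := by rw [om_sq, one_mul]

theorem prod_eq_choose (d u : ℕ) :
    (∏ s ∈ range u, (((d : ℚ) + 1) + s)) / (u.factorial : ℚ) = ((d + u).choose d : ℚ) := by
  have h : (∏ s ∈ range u, (((d : ℚ) + 1) + s)) = ((d + u).factorial : ℚ) / (d.factorial : ℚ) := by
    induction u with
    | zero => simp; field_simp
    | succ u ih =>
      rw [Finset.prod_range_succ, ih, ← add_assoc, Nat.factorial_succ]
      push_cast; ring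
  rw [h, Nat.choose_eq_factorial_div_factorial (by omega)]
  have hd : d.factorial * (d + u - d).factorial ∣ (d + u).factorial :=
    Nat.factorial_mul_factorial_dvd_factorial (by omega)
  rw [Nat.cast_div hd (by positivity)]
  have : d + u - d = u := by omega
  rw [this]
  push_cast
  field_simp

theorem coeff_om_pow (d u : ℕ) :
    coeff u ((om ^ 2) ^ (d + 1)) = 12 ^ u * ((∏ s ∈ range u, (((d : ℚ) + 1) + s)) / (u.factorial : ℚ)) := by
  rw [om_sq_rescale, ← map_pow, mk_one_pow_eq_mk_choose_add, coeff_rescale, coeff_mk, prod_eq_choose]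

/-- the Miller recurrence for powers of a power series. -/
theorem miller (b : PowerSeries ℚ) (hb : constantCoeff b = 1) (N k : ℕ) :
    ((k : ℚ) + 1) * coeff (k + 1) (b ^ N) = ∑ j ∈ range (k + 1),
      (((j : ℚ) + 1) * N - ((k : ℚ) - j)) * coeff (j + 1) b * coeff (k - j) (b ^ N) := by
  have h : b * d⁄dX ℚ (b ^ N) = (N : PowerSeries ℚ) * (d⁄dX ℚ b * b ^ N) := by
    rw [derivative_pow]
    rcases N with _ | N
    · simp
    · simp only [Nat.add_sub_cancel]; ring
  have h2 := congrArg (coeff k) h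
  have hN : (N : PowerSeries ℚ) = C (N : ℚ) := by simp
  rw [hN, coeff_C_mul, coeff_mul, coeff_mul, Finset.Nat.sum_antidiagonal_eq_sum_range_succ_mk,
    Finset.Nat.sum_antidiagonal_eq_sum_range_succ_mk, Finset.sum_range_succ'] at h2
  simp only [coeff_derivative, Nat.sub_zero, coeff_zero_eq_constantCoeff, hb, one_mul] at h2
  have h3 : ∑ j ∈ range (k + 1), (((j : ℚ) + 1) * N - ((k : ℚ) - j)) * coeff (j + 1) b * coeff (k - j) (b ^ N)
     = N * ∑ j ∈ range (k + 1), coeff (j + 1) b * ((j : ℚ) + 1) * coeff (k - j) (b ^ N)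
      - ∑ j ∈ range k, coeff (j + 1) b * (coeff (k - (j + 1) + 1) (b ^ N) * (((k - (j + 1) : ℕ) : ℚ) + 1)) := by
    rw [Finset.mul_sum]
    have : ∑ j ∈ range k, coeff (j + 1) b * (coeff (k - (j + 1) + 1) (b ^ N) * (((k - (j + 1) : ℕ) : ℚ) + 1))
      = ∑ j ∈ range (k + 1), ((k : ℚ) - j) * coeff (j + 1) b * coeff (k - j) (b ^ N) := by
      rw [Finset.sum_range_succ, sub_self, zero_mul, zero_mul, add_zero]
      apply Finset.sum_congr rfl
      intro j hj
      have hj' : j < k := Finset.mem_range.mp hj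
      have e1 : k - (j + 1) + 1 = k - j := by omega
      have e2 : ((k - (j + 1) : ℕ) : ℚ) + 1 = (k : ℚ) - j := by
        rw [Nat.cast_sub (by omega)]; push_cast; ring
      rw [e1, e2]; ring
    rw [this, ← Finset.sum_sub_distrib]
    apply Finset.sum_congr rfl
    intro j _
    ring
  rw [h3]
  linarith

end Pool.Agent.Helper96.Flow
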