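import Mathlib

open MvPolynomial Finset

namespace Pool.Agent.Helper96.Flow

/-- moments of the formal Gaussian functional with parameter t. -/
noncomputable def mom (t : ℚ) (e : ℕ) : ℚ :=
  if Even e then t ^ (e / 2) * (e.factorial : ℚ) / ((e / 2).factorial : ℚ) else 0

theorem mom_zero (t : ℚ) : mom t 0 = 1 := by simp [mom]

theorem mom_even (t : ℚ) (k : ℕ) :
    mom t (2 * k) = t ^ k * ((2 * k).factorial : ℚ) / (k.factorial : ℚ) := by
  simp [mom]

theorem mom_odd (t : ℚ) (k : ℕ) : mom t (2 * k + 1) = 0 := by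
  simp [mom]

theorem mom_succ (t : ℚ) (e : ℕ) : mom t (e + 1) = 2 * t * e * mom t (e - 1) := by
  rcases Nat.even_or_odd' e with ⟨k, rfl | rfl⟩
  · rw [mom_odd]
    rcases k with _ | k
    · simp
    · have : 2 * (k + 1) - 1 = 2 * k + 1 := by omega
      rw [this, mom_odd]; simp
  · have h1 : 2 * k + 1 + 1 = 2 * (k + 1) := by ring
    have h2 : 2 * k + 1 - 1 = 2 * k := by omega
    rw [h1, h2, mom_even, mom_even]
    have h3 : (2 * (k + 1)).factorial = (2 * k + 2) * ((2 * k + 1) * (2 * k).factorial) := by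
      have : 2 * (k + 1) = (2 * k + 1) + 1 := by ring
      rw [this, Nat.factorial_succ, Nat.factorial_succ]
    rw [h3, Nat.factorial_succ]
    have hk : (k.factorial : ℚ) ≠ 0 := by positivity
    push_cast
    field_simp
    ring

variable {ι : Type} [Fintype ι] [DecidableEq ι]

/-- the formal Gaussian functional. -/
noncomputable def EE (τ : ι → ℚ) : MvPolynomial ι ℚ →ₗ[ℚ] ℚ :=
  (basisMonomials ι ℚ).constr ℚ (fun s => ∏ i, mom (τ i) (s i))

omit [DecidableEq ι] in
theorem EE_monomial (τ : ι → ℚ) (s : ι →₀ ℕ) (c : ℚ) :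
    EE τ (monomial s c) = c * ∏ i, mom (τ i) (s i) := by
  have h : monomial s c = c • (basisMonomials ι ℚ s) := by
    rw [coe_basisMonomials, smul_monomial, smul_eq_mul, mul_one]
  rw [h, map_smul, EE, Module.Basis.constr_basis, smul_eq_mul]

omit [DecidableEq ι] in
theorem EE_one (τ : ι → ℚ) : EE τ 1 = 1 := by
  have : (1 : MvPolynomial ι ℚ) = monomial 0 1 := rfl
  rw [this, EE_monomial]
  simp [mom_zero]

theorem EE_X_mul (τ : ι → ℚ) (i : ι) (F : MvPolynomial ι ℚ) :
    EE τ (X i * F) = 2 * τ i * EE τ (pderiv i F) := by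
  induction F using MvPolynomial.induction_on' with
  | add p q hp hq => rw [mul_add, map_add, map_add, map_add, hp, hq]; ring
  | monomial s c =>
    rw [pderiv_monomial, X, monomial_mul, EE_monomial, EE_monomial]
    rw [← Finset.mul_prod_erase univ (fun j => mom (τ j) ((Finsupp.single i 1 + s : ι →₀ ℕ) j)) (Finset.mem_univ i),
      ← Finset.mul_prod_erase univ (fun j => mom (τ j) ((s - Finsupp.single i 1 : ι →₀ ℕ) j)) (Finset.mem_univ i)]
    have h1 : ∏ x ∈ univ.erase i, mom (τ x) ((Finsupp.single i 1 + s : ι →₀ ℕ) x)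
        = ∏ x ∈ univ.erase i, mom (τ x) ((s - Finsupp.single i 1 : ι →₀ ℕ) x) := by
      apply Finset.prod_congr rfl
      intro x hx
      have hx' : i ≠ x := fun h => by simp [h] at hx
      simp [Finsupp.single_apply, hx']
    rw [h1]
    have h2 : mom (τ i) ((Finsupp.single i 1 + s : ι →₀ ℕ) i) = 2 * τ i * (s i) * mom (τ i) ((s - Finsupp.single i 1 : ι →₀ ℕ) i) := by
      simp only [Finsupp.coe_add, Pi.add_apply, Finsupp.single_eq_same, Finsupp.coe_tsub, Pi.sub_apply]
      rw [add_comm 1 (s i), mom_succ]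
    rw [h2]
    ring

end Pool.Agent.Helper96.Flow
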