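import Mathlib
import Pool.Agent.Helper96.FlowGauss

open MvPolynomial Finset

namespace Pool.Agent.Helper96.Flow

/-- parameters of the Gaussian functional: the common variable has parameter -1/N. -/
noncomputable def tau (N : ℕ) : Option (Fin N) → ℚ
  | none => -1 / (N : ℚ)
  | some _ => 1

/-- the Gaussian functional in N + 1 variables. -/
noncomputable def E0 (N : ℕ) : MvPolynomial (Option (Fin N)) ℚ →ₗ[ℚ] ℚ := EE (tau N)

/-- the linear form N x + sum of the other variables. -/
noncomputable def cc (N : ℕ) : MvPolynomial (Option (Fin N)) ℚ :=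
  (N : MvPolynomial (Option (Fin N)) ℚ) * X none + ∑ a : Fin N, X (some a)

/-- the sum of the cubes. -/
noncomputable def GG (N : ℕ) : MvPolynomial (Option (Fin N)) ℚ :=
  ∑ a : Fin N, (X none + X (some a)) ^ 3

/-- the modified cubic. -/
noncomputable def KK (N : ℕ) : MvPolynomial (Option (Fin N)) ℚ :=
  GG N - 3 * X none ^ 2 * cc N

/-- the translation invariant derivation. -/
noncomputable def DD (N : ℕ) :
    Derivation ℚ (MvPolynomial (Option (Fin N)) ℚ) (MvPolynomial (Option (Fin N)) ℚ) :=
  pderiv none - ∑ a : Fin N, pderiv (some a)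

theorem DD_apply (N : ℕ) (F : MvPolynomial (Option (Fin N)) ℚ) :
    DD N F = pderiv none F - ∑ a : Fin N, pderiv (some a) F := by
  rw [DD, Derivation.sub_apply]
  congr 1
  have := Derivation.coeFnAddMonoidHom (R := ℚ) (A := MvPolynomial (Option (Fin N)) ℚ) (M := MvPolynomial (Option (Fin N)) ℚ)
  rw [← Derivation.coeFnAddMonoidHom_apply, map_sum, Finset.sum_apply]
  rfl

theorem DD_x (N : ℕ) : DD N (X none) = 1 := by
  rw [DD_apply]
  simp [pderiv_X]

theorem DD_some (N : ℕ) (b : Fin N) : DD N (X (some b)) = -1 := by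
  rw [DD_apply]
  simp [pderiv_X, Pi.single_apply]

theorem DD_cc (N : ℕ) : DD N (cc N) = 0 := by
  have h : DD N ((N : MvPolynomial (Option (Fin N)) ℚ)) = 0 := Derivation.map_natCast _ _
  rw [cc, map_add, Derivation.leibniz, DD_x, h, map_sum]
  simp [DD_some]

theorem DD_GG (N : ℕ) : DD N (GG N) = 0 := by
  rw [GG, map_sum]
  apply Finset.sum_eq_zero
  intro a _
  rw [Derivation.leibniz_pow, map_add, DD_x, DD_some]
  simp

theorem E0_cc (N : ℕ) (hN : N ≠ 0) (H : MvPolynomial (Option (Fin N)) ℚ) :
    E0 N (cc N * H) = -2 * E0 N (DD N H) := by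
  have hN' : (N : ℚ) ≠ 0 := by exact_mod_cast hN
  rw [cc, add_mul, map_add, Finset.sum_mul, map_sum, DD_apply, map_sub, map_sum]
  have h1 : E0 N ((N : MvPolynomial (Option (Fin N)) ℚ) * X none * H) = -2 * E0 N (pderiv none H) := by
    have : (N : MvPolynomial (Option (Fin N)) ℚ) * X none * H = (N : ℚ) • (X none * H) := by
      rw [MvPolynomial.smul_eq_C_mul]; simp; ring
    rw [this, map_smul, E0, EE_X_mul, tau, smul_eq_mul]
    field_simp
  have h2 : ∀ a : Fin N, E0 N (X (some a) * H) = 2 * E0 N (pderiv (some a) H) := by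
    intro a
    rw [E0, EE_X_mul, tau]; ring
  rw [h1, Finset.sum_congr rfl (fun a _ => h2 a), ← Finset.mul_sum]
  ring

theorem DD_KK (N : ℕ) : DD N (KK N) = - (6 * X none * cc N) := by
  have h3 : DD N (3 : MvPolynomial (Option (Fin N)) ℚ) = 0 := by
    exact_mod_cast Derivation.map_natCast (DD N) 3
  rw [KK, map_sub, DD_GG, Derivation.leibniz, DD_cc, Derivation.leibniz, Derivation.leibniz_pow, DD_x, h3]
  simp
  ring

theorem key (N : ℕ) (hN : N ≠ 0) (n : ℕ) : ∀ F : MvPolynomial (Option (Fin N)) ℚ, DD N F = 0 →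
    E0 N (F * KK N ^ n) - 12 * n * E0 N (X none * F * KK N ^ (n - 1)) = E0 N (F * GG N ^ n) := by
  induction n with
  | zero => intro F _; simp
  | succ n ih =>
    intro F hF
    have hFG : DD N (F * GG N) = 0 := by
      rw [Derivation.leibniz, hF, DD_GG]; simp
    have := ih (F * GG N) hFG
    have e1 : F * GG N ^ (n + 1) = F * GG N * GG N ^ n := by ring
    rw [e1, ← this]
    have e2 : F * KK N ^ (n + 1) = F * GG N * KK N ^ n - cc N * (3 * X none ^ 2 * F * KK N ^ n) := by
      rw [pow_succ]; nth_rewrite 2 [KK]; ring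
    rw [e2, map_sub, E0_cc N hN]
    have e3 : DD N (3 * X none ^ 2 * F * KK N ^ n)
        = ((6 * ((n : ℚ) + 1)) • (X none * F * KK N ^ n)) - ((6 * (n : ℚ)) • (X none * (F * GG N) * KK N ^ (n - 1))) := by
      have h3 : DD N (3 : MvPolynomial (Option (Fin N)) ℚ) = 0 := by
        exact_mod_cast Derivation.map_natCast (DD N) 3
      rw [Derivation.leibniz, Derivation.leibniz_pow, DD_KK, Derivation.leibniz, hF,
        Derivation.leibniz, Derivation.leibniz_pow, DD_x, h3]
      rw [MvPolynomial.smul_eq_C_mul, MvPolynomial.smul_eq_C_mul]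
      simp only [smul_eq_mul, nsmul_eq_mul, map_mul, map_add, map_natCast, map_ofNat, map_one]
      rcases n with _ | n
      · simp; ring
      · have hG : GG N = KK N + 3 * X none ^ 2 * cc N := by rw [KK]; ring
        rw [hG]
        simp only [Nat.add_sub_cancel]
        push_cast
        ring
    rw [e3, map_sub, map_smul, map_smul, smul_eq_mul, smul_eq_mul]
    simp only [Nat.add_sub_cancel]
    push_cast
    ring

end Pool.Agent.Helper96.Flow
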