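import Mathlib
import Pool.Agent.Helper96.FlowIdent

open MvPolynomial Finset

namespace Pool.Agent.Helper96.Flow

/-- all ways to pick one entry of a list, together with the remaining list. -/
def splits {V : Type} : List V → List (V × List V)
  | [] => []
  | x :: xs => (x, xs) :: (splits xs).map (fun p => (p.1, x :: p.2))

/-- all perfect matchings of a list of length 2E, as lists of pairs. -/
def pairings {V : Type} : ℕ → List V → List (List (V × V))
  | 0, [] => [[]]
  | 0, _ :: _ => []
  | _ + 1, [] => []
  | E + 1, x :: xs => (splits xs).flatMap (fun p => (pairings E p.2).map (fun M => (x, p.1) :: M))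

theorem splits_length {V : Type} (l : List V) : ∀ p ∈ splits l, p.2.length + 1 = l.length := by
  induction l with
  | nil => intro p hp; simp [splits] at hp
  | cons x xs ih =>
    intro p hp
    rw [splits, List.mem_cons] at hp
    rcases hp with rfl | hp
    · rfl
    · rw [List.mem_map] at hp
      obtain ⟨r, hr, rfl⟩ := hp
      simp [ih r hr]

theorem pairings_length {V : Type} : ∀ (E : ℕ) (l : List V), ∀ M ∈ pairings E l, M.length = E := by
  intro E
  induction E with
  | zero =>
    intro l M hM
    cases l with
    | nil => simp [pairings] at hM; simp [hM]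
    | cons x xs => simp [pairings] at hM
  | succ E ih =>
    intro l M hM
    cases l with
    | nil => simp [pairings] at hM
    | cons x xs =>
      rw [pairings, List.mem_flatMap] at hM
      obtain ⟨p, _, hM⟩ := hM
      rw [List.mem_map] at hM
      obtain ⟨M', hM', rfl⟩ := hM
      simp [ih _ _ hM']

theorem derivation_list {V R : Type} [CommRing R] [Algebra ℚ R] (D : Derivation ℚ R R) (Y : V → R)
    (l : List V) :
    D ((l.map Y).prod) = ((splits l).map (fun p => D (Y p.1) * (p.2.map Y).prod)).sum := by
  induction l with
  | nil => simp [splits]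
  | cons x xs ih =>
    rw [List.map_cons, List.prod_cons, Derivation.leibniz, ih, splits, List.map_cons, List.sum_cons,
      List.map_map, smul_eq_mul, smul_eq_mul, ← List.sum_map_mul_left, add_comm, mul_comm (xs.map Y).prod]
    congr 1
    apply congrArg
    apply List.map_congr_left
    intro p _
    simp only [Function.comp, List.map_cons, List.prod_cons]
    ring

theorem sum_flatMap' {α β : Type} [AddCommMonoid β] (l : List α) (f : α → List β) :
    (l.flatMap f).sum = (l.map (fun a => (f a).sum)).sum := by
  induction l with
  | nil => simp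
  | cons x xs ih => simp [List.flatMap_cons, ih]

theorem prod_flatMap' {α β : Type} [CommMonoid β] (l : List α) (f : α → List β) :
    (l.flatMap f).prod = (l.map (fun a => (f a).prod)).prod := by
  induction l with
  | nil => simp
  | cons x xs ih => simp [List.flatMap_cons, ih]

theorem list_sum_comm {α β : Type} (l : List α) (s : Finset β) (g : α → β → ℚ) :
    (l.map (fun a => ∑ b ∈ s, g a b)).sum = ∑ b ∈ s, (l.map (fun a => g a b)).sum := by
  induction l with
  | nil => simp
  | cons x xs ih => simp [ih, Finset.sum_add_distrib]

/-- the sum over all perfect matchings of the product of the weights. -/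
def haf {V : Type} (C : V → V → ℚ) (E : ℕ) (l : List V) : ℚ :=
  ((pairings E l).map (fun M => (M.map (fun p => C p.1 p.2)).prod)).sum

theorem haf_succ {V : Type} (C : V → V → ℚ) (E : ℕ) (x : V) (xs : List V) :
    haf C (E + 1) (x :: xs) = ((splits xs).map (fun p => C x p.1 * haf C E p.2)).sum := by
  rw [haf, pairings, List.map_flatMap, sum_flatMap']
  apply congrArg
  apply List.map_congr_left
  intro p _
  rw [List.map_map, haf, ← List.sum_map_mul_left]
  rfl

theorem wick {V : Type} {ι : Type} (L : MvPolynomial ι ℚ →ₗ[ℚ] ℚ) (Y : V → MvPolynomial ι ℚ)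
    (D : V → Derivation ℚ (MvPolynomial ι ℚ) (MvPolynomial ι ℚ)) (κ : ℚ) (Cv : V → V → ℚ)
    (hL : ∀ v F, L (Y v * F) = κ * L (D v F)) (hD : ∀ u v, D u (Y v) = C (Cv u v)) (h1 : L 1 = 1)
    (E : ℕ) : ∀ l : List V, l.length = 2 * E → L ((l.map Y).prod) = κ ^ E * haf Cv E l := by
  induction E with
  | zero =>
    intro l hl
    have : l = [] := List.length_eq_zero_iff.mp (by simpa using hl)
    subst this
    simp [haf, pairings, h1]
  | succ E ih =>
    intro l hl
    cases l with
    | nil => simp at hl
    | cons x xs =>
      have hxs : xs.length = 2 * E + 1 := by simp at hl; omega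
      rw [List.map_cons, List.prod_cons, hL, derivation_list, map_list_sum, List.map_map, haf_succ,
        pow_succ]
      have : List.map (⇑L ∘ fun p => (D x) (Y p.1) * (List.map Y p.2).prod) (splits xs)
          = List.map (fun p => κ ^ E * (Cv x p.1 * haf Cv E p.2)) (splits xs) := by
        apply List.map_congr_left
        intro p hp
        have hlen := splits_length xs p hp
        simp only [Function.comp]
        rw [hD, ← MvPolynomial.smul_eq_C_mul, map_smul, ih p.2 (by omega), smul_eq_mul]
        ring
      rw [this, List.sum_map_mul_left]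
      ring

/-- Potts weight of a list of edges for a colouring. -/
def wt (N : ℕ) {V : Type} (σ : V → Fin N) (p : V × V) : ℚ :=
  (if σ p.1 = σ p.2 then (N : ℚ) else 0) - 1

/-- the half-edge list of n vertices of degree 3. -/
def hlist (n : ℕ) : List (Fin n) := (List.finRange n).flatMap (fun v => [v, v, v])

theorem hlist_length (n : ℕ) : (hlist n).length = 3 * n := by
  simp [hlist, List.length_flatMap, mul_comm]

theorem hlist_prod (n : ℕ) {R : Type} [CommRing R] (f : Fin n → R) :
    ((hlist n).map f).prod = ∏ v, f v ^ 3 := by
  rw [hlist, List.map_flatMap, prod_flatMap']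
  simp only [List.map_cons, List.map_nil, List.prod_cons, List.prod_nil]
  rw [← List.prod_ofFn, List.ofFn_eq_map]
  apply congrArg
  apply List.map_congr_left
  intro v _
  ring

theorem sum_pairings (N : ℕ) (hN : N ≠ 0) (m : ℕ) :
    ((pairings (3 * m) (hlist (2 * m))).map
      (fun M => ∑ σ : Fin (2 * m) → Fin N, (M.map (wt N σ)).prod)).sum
      = ((N : ℚ) / 2) ^ (3 * m) * E0 N (GG N ^ (2 * m)) := by
  have hN' : (N : ℚ) ≠ 0 := by exact_mod_cast hN
  rw [list_sum_comm]
  have h2 : ∀ σ : Fin (2 * m) → Fin N,
      ((pairings (3 * m) (hlist (2 * m))).map (fun M => (M.map (wt N σ)).prod)).sum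
      = ((N : ℚ) / 2) ^ (3 * m) * E0 N (∏ v, (X none + X (some (σ v))) ^ 3) := by
    intro σ
    have hw := wick (E0 N) (fun v : Fin (2 * m) => X none + X (some (σ v)))
      (fun v => - pderiv none + (N : ℚ) • pderiv (some (σ v))) (2 / N) (fun u v => wt N σ (u, v))
      (by
        intro v F
        rw [add_mul, map_add]
        unfold E0
        rw [EE_X_mul, EE_X_mul]
        simp only [tau, Derivation.add_apply, Derivation.neg_apply, Derivation.smul_apply, map_add,
          map_neg, map_smul, smul_eq_mul]
        field_simp)
      (by
        intro u v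
        simp only [Derivation.add_apply, Derivation.neg_apply, Derivation.smul_apply, map_add, wt]
        rw [pderiv_X_self, pderiv_X_of_ne (by simp), pderiv_X_of_ne (by simp), pderiv_X, Pi.single_apply]
        simp only [Option.some_inj]
        by_cases h : σ u = σ v
        · rw [if_pos h.symm, if_pos h]; simp [MvPolynomial.smul_eq_C_mul]; ring
        · rw [if_neg (fun h' => h h'.symm), if_neg h]; simp)
      (by rw [E0, EE_one]) (3 * m) (hlist (2 * m)) (by rw [hlist_length]; ring)
    rw [hlist_prod] at hw
    rw [hw]
    unfold haf
    rw [← mul_assoc, ← mul_pow]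
    have : (N : ℚ) / 2 * (2 / N) = 1 := by field_simp
    rw [this, one_pow, one_mul]
  rw [Finset.sum_congr rfl (fun σ _ => h2 σ), ← Finset.mul_sum, ← map_sum]
  congr 2
  rw [GG, Fintype.sum_pow]

end Pool.Agent.Helper96.Flow
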