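import Mathlib
import Pool.Agent.Helper96.FlowWick
import Pool.Agent.Helper96.FlowSeries

open Finset

namespace Pool.Agent.Helper96.Flow

/-- divided powers. -/
noncomputable def dp {R : Type} [CommRing R] [Algebra ℚ R] (n : ℕ) (x : R) : R :=
  ((n.factorial : ℚ)⁻¹) • x ^ n

theorem dp_add {R : Type} [CommRing R] [Algebra ℚ R] (n : ℕ) (x y : R) :
    dp n (x + y) = ∑ m ∈ antidiagonal n, dp m.1 x * dp m.2 y := by
  rw [dp, (Commute.all x y).add_pow', Finset.smul_sum]
  apply Finset.sum_congr rfl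
  intro m hm
  have hm' : m.1 + m.2 = n := by simpa using hm
  rw [dp, dp, smul_mul_smul_comm, ← Nat.cast_smul_eq_nsmul ℚ, smul_smul]
  congr 1
  have h := Nat.add_choose_mul_factorial_mul_factorial m.2 m.1
  rw [add_comm m.2 m.1, hm'] at h
  have h' : (n.choose m.1 : ℚ) * (m.1.factorial : ℚ) * (m.2.factorial : ℚ) = (n.factorial : ℚ) := by
    rw [← h]; push_cast; ring
  have h1 : (m.1.factorial : ℚ) ≠ 0 := by positivity
  have h2 : (m.2.factorial : ℚ) ≠ 0 := by positivity
  rw [← h']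
  have h3 : (n.choose m.1 : ℚ) ≠ 0 := by
    have : 0 < n.choose m.1 := Nat.choose_pos (by omega)
    positivity
  field_simp

theorem dp_smul {R : Type} [CommRing R] [Algebra ℚ R] (n : ℕ) (c : ℚ) (x : R) :
    dp n (c • x) = c ^ n • dp n x := by
  rw [dp, dp, smul_pow, smul_comm]

open MvPolynomial in
theorem EE_indep {ι : Type} [Fintype ι] [DecidableEq ι] (τ : ι → ℚ) (i : ι) (F : MvPolynomial ι ℚ)
    (h : pderiv i F = 0) (e : ℕ) : EE τ (F * X i ^ e) = EE τ F * mom (τ i) e := by
  induction e using Nat.strong_induction_on with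
  | _ e ih =>
    rcases e with _ | e
    · simp [mom_zero]
    · have h1 : F * X i ^ (e + 1) = X i * (F * X i ^ e) := by ring
      rw [h1, EE_X_mul, Derivation.leibniz, h, Derivation.leibniz_pow, pderiv_X_self, mom_succ]
      rcases e with _ | e
      · simp
      · simp only [smul_eq_mul, mul_zero, add_zero, Nat.add_sub_cancel, mul_one, nsmul_eq_mul]
        have h2 : F * (((e + 1 : ℕ) : MvPolynomial ι ℚ) * X i ^ e) = ((e + 1 : ℕ) : ℚ) • (F * X i ^ e) := by
          rw [MvPolynomial.smul_eq_C_mul]; simp; ring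
        rw [h2, map_smul, ih e (by omega), smul_eq_mul]
        ring

section
variable (N : ℕ)
open MvPolynomial

noncomputable def s2 (S : Finset (Fin N)) : MvPolynomial (Option (Fin N)) ℚ :=
  ∑ a ∈ S, (3 : ℚ) • X (some a) ^ 2

noncomputable def s3 (S : Finset (Fin N)) : MvPolynomial (Option (Fin N)) ℚ :=
  ∑ a ∈ S, X (some a) ^ 3

theorem pderiv_s2 (S : Finset (Fin N)) (i : Option (Fin N)) (h : ∀ a ∈ S, i ≠ some a) :
    pderiv i (s2 N S) = 0 := by
  rw [s2, map_sum]
  apply Finset.sum_eq_zero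
  intro a ha
  rw [Derivation.map_smul, Derivation.leibniz_pow, pderiv_X_of_ne (h a ha).symm]
  simp

theorem pderiv_s3 (S : Finset (Fin N)) (i : Option (Fin N)) (h : ∀ a ∈ S, i ≠ some a) :
    pderiv i (s3 N S) = 0 := by
  rw [s3, map_sum]
  apply Finset.sum_eq_zero
  intro a ha
  rw [Derivation.leibniz_pow, pderiv_X_of_ne (h a ha).symm]
  simp

theorem pderiv_dp (i : Option (Fin N)) (n : ℕ) (F : MvPolynomial (Option (Fin N)) ℚ)
    (h : pderiv i F = 0) : pderiv i (dp n F) = 0 := by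
  rw [dp, Derivation.map_smul, Derivation.leibniz_pow, h]
  simp

theorem pderiv_dpdp (S : Finset (Fin N)) (i : Option (Fin N)) (h : ∀ a ∈ S, i ≠ some a) (u v : ℕ) :
    pderiv i (dp u (s2 N S) * dp v (s3 N S)) = 0 := by
  rw [Derivation.leibniz, pderiv_dp N i u _ (pderiv_s2 N S i h), pderiv_dp N i v _ (pderiv_s3 N S i h)]
  simp

/-- the weight of a set of colours. -/
noncomputable def Wc (S : Finset (Fin N)) (u v : ℕ) : ℚ := E0 N (dp u (s2 N S) * dp v (s3 N S))

/-- the weight of one colour. -/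
noncomputable def W1c (u v : ℕ) : ℚ := 3 ^ u / ((u.factorial : ℚ) * (v.factorial : ℚ)) * mom 1 (2 * u + 3 * v)

theorem Wc_insert (S : Finset (Fin N)) (a : Fin N) (ha : a ∉ S) (u v : ℕ) :
    Wc N (insert a S) u v = ∑ n ∈ antidiagonal v, ∑ m ∈ antidiagonal u, W1c m.1 n.1 * Wc N S m.2 n.2 := by
  rw [Wc, s2, s3, Finset.sum_insert ha, Finset.sum_insert ha, dp_add, dp_add, Finset.sum_mul_sum,
    map_sum, Finset.sum_comm]
  rw [← Finset.sum_comm]
  simp_rw [map_sum]
  rw [Finset.sum_comm]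
  apply Finset.sum_congr rfl
  intro n _
  apply Finset.sum_congr rfl
  intro m _
  have h1 : dp m.1 ((3 : ℚ) • X (some a) ^ 2) * dp m.2 (∑ a ∈ S, (3 : ℚ) • X (some a) ^ 2) *
      (dp n.1 (X (some a) ^ 3) * dp n.2 (∑ a ∈ S, X (some a) ^ 3))
      = (3 ^ m.1 / ((m.1.factorial : ℚ) * (n.1.factorial : ℚ))) •
        ((dp m.2 (s2 N S) * dp n.2 (s3 N S)) * X (some a) ^ (2 * m.1 + 3 * n.1)) := by
    rw [dp_smul, ← s2, ← s3]
    simp only [dp]
    rw [pow_add, pow_mul, pow_mul]
    simp only [MvPolynomial.smul_eq_C_mul, map_mul, map_div₀, map_inv₀, div_eq_mul_inv, mul_inv]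
    ring
  rw [h1, map_smul, E0, EE_indep (tau N) (some a) _ (pderiv_dpdp N S (some a)
    (by intro b hb h; simp at h; exact ha (h ▸ hb)) _ _)]
  rw [W1c, Wc, smul_eq_mul, tau, E0]
  ring


/-- the generating series of the weights, outer variable h, inner variable z. -/
noncomputable def Wser (S : Finset (Fin N)) : PowerSeries (PowerSeries ℚ) :=
  PowerSeries.mk (fun v => PowerSeries.mk (fun u => Wc N S u v))

noncomputable def W1ser : PowerSeries (PowerSeries ℚ) :=
  PowerSeries.mk (fun v => PowerSeries.mk (fun u => W1c u v))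

theorem Wser_empty : Wser N ∅ = 1 := by
  ext v u
  rw [Wser, PowerSeries.coeff_mk, PowerSeries.coeff_mk, Wc, s2, s3, Finset.sum_empty, Finset.sum_empty,
    PowerSeries.coeff_one]
  rcases u with _ | u
  · rcases v with _ | v
    · simp [dp, E0, EE_one]
    · simp [dp]
  · by_cases hv : v = 0
    · simp [dp, hv, PowerSeries.coeff_one]
    · simp [dp, hv]

theorem Wser_insert (S : Finset (Fin N)) (a : Fin N) (ha : a ∉ S) :
    Wser N (insert a S) = W1ser * Wser N S := by
  ext v u
  rw [Wser, PowerSeries.coeff_mk, PowerSeries.coeff_mk, Wc_insert N S a ha, PowerSeries.coeff_mul, map_sum]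
  apply Finset.sum_congr rfl
  intro n _
  rw [W1ser, Wser, PowerSeries.coeff_mk, PowerSeries.coeff_mk, PowerSeries.coeff_mul]
  apply Finset.sum_congr rfl
  intro m _
  rw [PowerSeries.coeff_mk, PowerSeries.coeff_mk]

theorem Wser_eq (S : Finset (Fin N)) : Wser N S = W1ser ^ S.card := by
  induction S using Finset.induction_on with
  | empty => rw [Wser_empty, Finset.card_empty, pow_zero]
  | insert a S ha ih => rw [Wser_insert N S a ha, ih, Finset.card_insert_of_notMem ha, pow_succ]; ring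

end

/-- the numbers b_k. -/
def bb (k : ℕ) : ℚ := ((6 * k).factorial : ℚ) / (((3 * k).factorial : ℚ) * ((2 * k).factorial : ℚ))

noncomputable def bser : PowerSeries ℚ := PowerSeries.mk bb

theorem W1ser_eq : W1ser = PowerSeries.C om *
    PowerSeries.rescale (om ^ 3) (PowerSeries.map PowerSeries.C (PowerSeries.expand 2 two_ne_zero bser)) := by
  ext1 v
  rw [PowerSeries.coeff_C_mul, PowerSeries.coeff_rescale, PowerSeries.coeff_map, W1ser, PowerSeries.coeff_mk]
  rcases Nat.even_or_odd' v with ⟨k, rfl | rfl⟩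
  · rw [PowerSeries.coeff_expand_mul, bser, PowerSeries.coeff_mk]
    have h1 : (PowerSeries.mk fun u => W1c u (2 * k)) = PowerSeries.C (1 / ((2 * k).factorial : ℚ)) * theta (3 * k) := by
      ext u
      rw [PowerSeries.coeff_mk, PowerSeries.coeff_C_mul, theta, PowerSeries.coeff_mk, W1c]
      have h2 : 2 * u + 3 * (2 * k) = 2 * (u + 3 * k) := by ring
      have h3 : 2 * u + 2 * (3 * k) = 2 * (u + 3 * k) := by ring
      rw [h2, h3, mom_even, one_pow]
      have : (u.factorial : ℚ) ≠ 0 := by positivity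
      field_simp
    rw [h1, theta_eq, bb]
    have h4 : om ^ (2 * (3 * k) + 1) = om * (om ^ 3) ^ (2 * k) := by
      rw [← pow_mul, ← pow_succ']; congr 1; ring
    have h5 : 2 * (3 * k) = 6 * k := by ring
    rw [h4, h5, ← mul_assoc, ← map_mul]
    have h6 : 1 / ((2 * k).factorial : ℚ) * (((6 * k).factorial : ℚ) / ((3 * k).factorial : ℚ))
        = ((6 * k).factorial : ℚ) / (((3 * k).factorial : ℚ) * ((2 * k).factorial : ℚ)) := by
      field_simp
    rw [h6]; ring
  · have h7 : ¬ (2 ∣ 2 * k + 1) := by omega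
    rw [PowerSeries.coeff_expand_of_not_dvd _ _ _ h7, map_zero, mul_zero, mul_zero]
    ext u
    rw [PowerSeries.coeff_mk, W1c]
    have h2 : 2 * u + 3 * (2 * k + 1) = 2 * (u + 3 * k + 1) + 1 := by ring
    rw [h2, mom_odd]; simp

theorem W1ser_pow_even (N k : ℕ) : PowerSeries.coeff (2 * k) (W1ser ^ N)
    = PowerSeries.C (PowerSeries.coeff k (bser ^ N)) * om ^ (N + 6 * k) := by
  rw [W1ser_eq, mul_pow, ← map_pow, ← map_pow, ← map_pow, ← map_pow, PowerSeries.coeff_C_mul,
    PowerSeries.coeff_rescale, PowerSeries.coeff_map, PowerSeries.coeff_expand_mul, ← pow_mul, pow_add]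
  have : 3 * (2 * k) = 6 * k := by ring
  rw [this]; ring

theorem W1ser_pow_odd (N k : ℕ) : PowerSeries.coeff (2 * k + 1) (W1ser ^ N) = 0 := by
  have h7 : ¬ (2 ∣ 2 * k + 1) := by omega
  rw [W1ser_eq, mul_pow, ← map_pow, ← map_pow, ← map_pow, ← map_pow, PowerSeries.coeff_C_mul,
    PowerSeries.coeff_rescale, PowerSeries.coeff_map, PowerSeries.coeff_expand_of_not_dvd _ _ _ h7,
    map_zero, mul_zero, mul_zero]

end Pool.Agent.Helper96.Flow
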