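import Mathlib
import Pool.Agent.Helper96.FlowEval

open Finset

namespace Pool.Agent.Helper96.Flow

section
variable (N : ℕ)
open MvPolynomial

theorem KK_eq : KK N = s3 N univ + ((-2 * (N : ℚ)) • (X none) ^ 3 + X none * s2 N univ) := by
  rw [KK, GG, cc, s2, s3]
  simp only [MvPolynomial.smul_eq_C_mul]
  have h : ∀ a : Fin N, (X none + X (some a) : MvPolynomial (Option (Fin N)) ℚ) ^ 3
      = X none ^ 3 + 3 * X none ^ 2 * X (some a) + X none * (C 3 * X (some a) ^ 2) + X (some a) ^ 3 := by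
    intro a
    have hC : (C (3 : ℚ) : MvPolynomial (Option (Fin N)) ℚ) = 3 := map_ofNat C 3
    rw [hC]
    ring
  rw [Finset.sum_congr rfl (fun a _ => h a), Finset.sum_add_distrib, Finset.sum_add_distrib,
    Finset.sum_add_distrib, Finset.sum_const, Finset.card_univ, Fintype.card_fin, ← Finset.mul_sum,
    ← Finset.mul_sum]
  simp only [nsmul_eq_mul, map_mul, map_neg, map_ofNat, map_natCast]
  ring

/-- the functional in the common variable. -/
noncomputable def Lam (e r : ℕ) (P : PowerSeries ℚ) : ℚ :=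
  ∑ p ∈ antidiagonal r, (-2 * (N : ℚ)) ^ p.1 / (p.1.factorial : ℚ) * mom (-1 / (N : ℚ)) (3 * p.1 + p.2 + e)
    * PowerSeries.coeff p.2 P

theorem E0_dp (e n : ℕ) : E0 N (X none ^ e * dp n (KK N))
    = ∑ p ∈ antidiagonal n, Lam N e p.2 (PowerSeries.coeff p.1 (W1ser ^ N)) := by
  have hW : Wser N univ = W1ser ^ N := by
    rw [Wser_eq, Finset.card_univ, Fintype.card_fin]
  rw [KK_eq, dp_add, Finset.mul_sum, map_sum]
  apply Finset.sum_congr rfl
  intro p _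
  rw [dp_add, Finset.mul_sum, Finset.mul_sum, map_sum, Lam]
  apply Finset.sum_congr rfl
  intro q _
  have h1 : (X none : MvPolynomial (Option (Fin N)) ℚ) ^ e * (dp p.1 (s3 N univ) *
      (dp q.1 ((-2 * (N : ℚ)) • X none ^ 3) * dp q.2 (X none * s2 N univ)))
      = ((-2 * (N : ℚ)) ^ q.1 / (q.1.factorial : ℚ)) •
        ((dp q.2 (s2 N univ) * dp p.1 (s3 N univ)) * X none ^ (3 * q.1 + q.2 + e)) := by
    simp only [dp]
    rw [pow_add, pow_add, pow_mul, mul_pow, smul_pow]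
    simp only [MvPolynomial.smul_eq_C_mul, map_mul, map_pow, map_inv₀, div_eq_mul_inv, mul_inv]
    ring
  rw [h1, map_smul, E0, EE_indep (tau N) none _ (pderiv_dpdp N univ none (by intro a _ h; cases h) _ _)]
  rw [← hW, Wser, PowerSeries.coeff_mk, PowerSeries.coeff_mk, Wc, smul_eq_mul, tau, E0]
  ring

end

theorem Lam_sub (N e r : ℕ) (P Q : PowerSeries ℚ) : Lam N e r (P - Q) = Lam N e r P - Lam N e r Q := by
  rw [Lam, Lam, Lam, ← Finset.sum_sub_distrib]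
  apply Finset.sum_congr rfl
  intro p _
  rw [map_sub]; ring

theorem Lam_C (N e r : ℕ) (c : ℚ) (P : PowerSeries ℚ) :
    Lam N e r (PowerSeries.C c * P) = c * Lam N e r P := by
  rw [Lam, Lam, Finset.mul_sum]
  apply Finset.sum_congr rfl
  intro p _
  rw [PowerSeries.coeff_C_mul]; ring

theorem Lam_X_zero (N : ℕ) (P : PowerSeries ℚ) : Lam N 0 0 (PowerSeries.X * P) = 0 := by
  rw [Lam]
  simp

theorem Lam_X_succ (N r : ℕ) (P : PowerSeries ℚ) :
    Lam N 0 (r + 1) (PowerSeries.X * P) = Lam N 1 r P := by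
  rw [Lam, Lam, Finset.Nat.sum_antidiagonal_succ']
  rw [PowerSeries.coeff_zero_X_mul, mul_zero, zero_add]
  apply Finset.sum_congr rfl
  intro p _
  rw [PowerSeries.coeff_succ_X_mul]
  have : 3 * p.1 + (p.2 + 1) + 0 = 3 * p.1 + p.2 + 1 := by ring
  rw [this]

theorem E0_GG (N : ℕ) (hN : N ≠ 0) (n : ℕ) :
    E0 N (GG N ^ (n + 1)) = ((n + 1).factorial : ℚ) *
      ∑ p ∈ antidiagonal (n + 1), Lam N 0 p.2 ((1 - PowerSeries.C (12 : ℚ) * PowerSeries.X) *
        PowerSeries.coeff p.1 (W1ser ^ N)) := by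
  have h := key N hN (n + 1) 1 (by simp)
  rw [one_mul, one_mul] at h
  rw [← h]
  have h1 := E0_dp N 0 (n + 1)
  have h2 := E0_dp N 1 n
  rw [pow_zero, one_mul, dp, map_smul, smul_eq_mul] at h1
  rw [pow_one, dp, mul_smul_comm, map_smul, smul_eq_mul] at h2
  have hf1 : ((n + 1).factorial : ℚ) ≠ 0 := by positivity
  have hf2 : (n.factorial : ℚ) ≠ 0 := by positivity
  have h1' : E0 N (KK N ^ (n + 1)) = ((n + 1).factorial : ℚ) *
      ∑ p ∈ antidiagonal (n + 1), Lam N 0 p.2 (PowerSeries.coeff p.1 (W1ser ^ N)) := by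
    rw [← h1]; field_simp
  have h2' : E0 N (MvPolynomial.X none * KK N ^ n) = (n.factorial : ℚ) *
      ∑ p ∈ antidiagonal n, Lam N 1 p.2 (PowerSeries.coeff p.1 (W1ser ^ N)) := by
    rw [← h2]; field_simp
  rw [h1']
  have e1 : (MvPolynomial.X none * 1 * KK N ^ (n + 1 - 1)) = MvPolynomial.X none * KK N ^ n := by
    rw [mul_one, Nat.add_sub_cancel]
  rw [e1, h2']
  have h3 : ∑ p ∈ antidiagonal (n + 1), Lam N 0 p.2 ((1 - PowerSeries.C (12 : ℚ) * PowerSeries.X) *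
        PowerSeries.coeff p.1 (W1ser ^ N))
      = ∑ p ∈ antidiagonal (n + 1), Lam N 0 p.2 (PowerSeries.coeff p.1 (W1ser ^ N))
        - 12 * ∑ p ∈ antidiagonal (n + 1), Lam N 0 p.2 (PowerSeries.X * PowerSeries.coeff p.1 (W1ser ^ N)) := by
    rw [Finset.mul_sum, ← Finset.sum_sub_distrib]
    apply Finset.sum_congr rfl
    intro p _
    rw [sub_mul, one_mul, mul_assoc, Lam_sub, Lam_C]
  have h4 : ∑ p ∈ antidiagonal (n + 1), Lam N 0 p.2 (PowerSeries.X * PowerSeries.coeff p.1 (W1ser ^ N))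
      = ∑ p ∈ antidiagonal n, Lam N 1 p.2 (PowerSeries.coeff p.1 (W1ser ^ N)) := by
    rw [Finset.Nat.sum_antidiagonal_succ', Lam_X_zero, zero_add]
    apply Finset.sum_congr rfl
    intro p _
    rw [Lam_X_succ]
  rw [h3, h4, Nat.factorial_succ]
  push_cast
  ring

theorem sum_even (g : ℕ → ℚ) (m : ℕ) (hg : ∀ k, g (2 * k + 1) = 0) :
    ∑ v ∈ range (2 * m + 1), g v = ∑ k ∈ range (m + 1), g (2 * k) := by
  induction m with
  | zero => simp
  | succ m ih =>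
    have : 2 * (m + 1) + 1 = (2 * m + 1) + 1 + 1 := by ring
    rw [this, Finset.sum_range_succ, Finset.sum_range_succ, ih, hg, Finset.sum_range_succ _ (m + 1)]
    have : 2 * m + 1 + 1 = 2 * (m + 1) := by ring
    rw [this]; ring

/-- the inner sum of the final formula. -/
def rho (q : ℚ) (j k : ℕ) : ℚ :=
  ∑ i ∈ Finset.range (2 * j + 1),
    12 ^ i * 2 ^ (2 * j - i) * (∏ s ∈ Finset.range i, (3 * (k : ℚ) - 1 + q / 2 + s)) / (i.factorial : ℚ)
      * ((6 * j - 2 * i).factorial : ℚ) / (((2 * j - i).factorial : ℚ) * ((3 * j - i).factorial : ℚ))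

theorem Lam_eval (M m k : ℕ) (hM : 2 ≤ M) (hk : k ≤ m) :
    Lam (2 * M) 0 (2 * m - 2 * k) ((1 - PowerSeries.C (12 : ℚ) * PowerSeries.X) *
        PowerSeries.coeff (2 * k) (W1ser ^ (2 * M)))
      = ((-1) ^ (m - k) * ((2 * M : ℕ) : ℚ) ^ k * PowerSeries.coeff k (bser ^ (2 * M))
        * rho ((2 * M : ℕ) : ℚ) (m - k) k) / ((2 * M : ℕ) : ℚ) ^ m := by
  obtain ⟨d, hd⟩ : ∃ d, M + 3 * k = d + 2 := ⟨M + 3 * k - 2, by omega⟩
  obtain ⟨j, rfl⟩ : ∃ j, m = k + j := ⟨m - k, by omega⟩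
  have hM' : ((2 * M : ℕ) : ℚ) ≠ 0 := by
    have : 2 * M ≠ 0 := by omega
    exact_mod_cast this
  have h1 : (1 - PowerSeries.C (12 : ℚ) * PowerSeries.X) * PowerSeries.coeff (2 * k) (W1ser ^ (2 * M))
      = PowerSeries.C (PowerSeries.coeff k (bser ^ (2 * M))) * (om ^ 2) ^ (d + 1) := by
    rw [W1ser_pow_even]
    have h2 : 2 * M + 6 * k = 2 * (d + 1) + 2 := by omega
    have h2' : om ^ (2 * M + 6 * k) = (om ^ 2) ^ (d + 1) * om ^ 2 := by rw [h2, pow_add, pow_mul]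
    rw [h2']
    calc (1 - PowerSeries.C (12 : ℚ) * PowerSeries.X) *
          (PowerSeries.C (PowerSeries.coeff k (bser ^ (2 * M))) * ((om ^ 2) ^ (d + 1) * om ^ 2))
        = (om ^ 2 * (1 - PowerSeries.C (12 : ℚ) * PowerSeries.X)) *
          (PowerSeries.C (PowerSeries.coeff k (bser ^ (2 * M))) * (om ^ 2) ^ (d + 1)) := by ring
      _ = _ := by rw [om_sq, one_mul]
  rw [h1, Lam_C]
  have h3 : 2 * (k + j) - 2 * k = 2 * j := by omega
  have h4 : k + j - k = j := by omega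
  rw [h3, h4, Lam, ← Finset.Nat.sum_antidiagonal_swap, Finset.Nat.sum_antidiagonal_eq_sum_range_succ_mk,
    rho, Finset.mul_sum, Finset.mul_sum, Finset.sum_div]
  apply Finset.sum_congr rfl
  intro i hi
  have hi' : i ≤ 2 * j := by have := Finset.mem_range.mp hi; omega
  simp only [Prod.swap]
  rw [coeff_om_pow]
  obtain ⟨l, hl⟩ : ∃ l, 2 * j = i + l := ⟨2 * j - i, by omega⟩
  have e1 : 2 * j - i = l := by omega
  have e2 : 3 * l + i + 0 = 2 * (j + l) := by omega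
  have e3 : 6 * j - 2 * i = 2 * (j + l) := by omega
  have e4 : 3 * j - i = j + l := by omega
  rw [e1, e2, e3, e4, mom_even]
  have e5 : ∏ s ∈ range i, (3 * (k : ℚ) - 1 + ((2 * M : ℕ) : ℚ) / 2 + s) = ∏ s ∈ range i, (((d : ℚ) + 1) + s) := by
    apply Finset.prod_congr rfl
    intro s _
    have : (M : ℚ) + 3 * k = d + 2 := by exact_mod_cast hd
    push_cast
    linear_combination this
  rw [e5]
  have hN : ∀ (x : ℚ), x ≠ 0 → (-2 * x) ^ l * (-1 / x) ^ (j + l) = (-1) ^ j * 2 ^ l * x ^ k / x ^ (k + j) := by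
    intro x hx
    have a1 : (-2 * x) ^ l = (-1) ^ l * 2 ^ l * x ^ l := by
      rw [← mul_pow, ← mul_pow]; congr 1; ring
    have a2 : (-1 / x) ^ (j + l) = (-1) ^ j * (-1) ^ l / (x ^ j * x ^ l) := by
      rw [div_pow, pow_add, pow_add]
    have a3 : ((-1 : ℚ)) ^ l * (-1) ^ l = 1 := by
      rw [← mul_pow]; simp
    rw [a1, a2, pow_add]
    have a4 : x ^ j ≠ 0 := pow_ne_zero _ hx
    have a5 : x ^ l ≠ 0 := pow_ne_zero _ hx
    have a6 : x ^ k ≠ 0 := pow_ne_zero _ hx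
    have b1 : (-1) ^ l * 2 ^ l * x ^ l * ((-1) ^ j * (-1) ^ l / (x ^ j * x ^ l))
        = ((-1 : ℚ) ^ l * (-1) ^ l) * ((-1) ^ j * 2 ^ l / x ^ j) := by
      rw [mul_div_assoc', mul_div_assoc', div_eq_div_iff (by positivity) (by positivity)]
      ring
    have b2 : (-1) ^ j * 2 ^ l * x ^ k / (x ^ k * x ^ j) = (-1 : ℚ) ^ j * 2 ^ l / x ^ j := by
      rw [div_eq_div_iff (by positivity) (by positivity)]
      ring
    rw [b1, b2, a3, one_mul]
  have h5 := hN ((2 * M : ℕ) : ℚ) hM'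
  have f1 : (l.factorial : ℚ) ≠ 0 := by positivity
  have f2 : ((j + l).factorial : ℚ) ≠ 0 := by positivity
  have f3 : (i.factorial : ℚ) ≠ 0 := by positivity
  calc PowerSeries.coeff k (bser ^ (2 * M)) *
        ((-2 * ((2 * M : ℕ) : ℚ)) ^ l / (l.factorial : ℚ) *
          ((-1 / ((2 * M : ℕ) : ℚ)) ^ (j + l) * ((2 * (j + l)).factorial : ℚ) / ((j + l).factorial : ℚ)) *
          (12 ^ i * ((∏ s ∈ range i, (((d : ℚ) + 1) + s)) / (i.factorial : ℚ))))
      = ((-2 * ((2 * M : ℕ) : ℚ)) ^ l * (-1 / ((2 * M : ℕ) : ℚ)) ^ (j + l)) *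
        (PowerSeries.coeff k (bser ^ (2 * M)) * (12 ^ i * (∏ s ∈ range i, (((d : ℚ) + 1) + s)) / (i.factorial : ℚ)
          * ((2 * (j + l)).factorial : ℚ) / ((l.factorial : ℚ) * ((j + l).factorial : ℚ)))) := by
        field_simp
    _ = _ := by rw [h5]; ring

theorem main_formula (M m : ℕ) (hM : 2 ≤ M) (hm : 1 ≤ m) :
    ((pairings (3 * m) (hlist (2 * m))).map
      (fun L => ∑ σ : Fin (2 * m) → Fin (2 * M), (L.map (wt (2 * M) σ)).prod)).sum
      = ((2 * M : ℕ) : ℚ) ^ (2 * m) * (((2 * m).factorial : ℚ) / 8 ^ m *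
        ∑ k ∈ range (m + 1), (-1) ^ (m - k) * ((2 * M : ℕ) : ℚ) ^ k * PowerSeries.coeff k (bser ^ (2 * M))
        * rho ((2 * M : ℕ) : ℚ) (m - k) k) := by
  have hN : 2 * M ≠ 0 := by omega
  have hM' : ((2 * M : ℕ) : ℚ) ≠ 0 := by exact_mod_cast hN
  rw [sum_pairings (2 * M) hN m]
  obtain ⟨n, hn⟩ : ∃ n, 2 * m = n + 1 := ⟨2 * m - 1, by omega⟩
  have h1 := E0_GG (2 * M) hN n
  rw [← hn] at h1
  rw [h1, Finset.Nat.sum_antidiagonal_eq_sum_range_succ_mk, sum_even _ m (by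
    intro k
    rw [W1ser_pow_odd, mul_zero]
    simp [Lam])]
  rw [Finset.sum_congr rfl (fun k hk => Lam_eval M m k hM (by have := Finset.mem_range.mp hk; omega)),
    ← Finset.sum_div]
  have h2 : (((2 * M : ℕ) : ℚ) / 2) ^ (3 * m) = ((2 * M : ℕ) : ℚ) ^ (2 * m) * ((2 * M : ℕ) : ℚ) ^ m / 8 ^ m := by
    rw [div_pow, ← pow_add]
    have a : 2 * m + m = 3 * m := by ring
    have b : (2 : ℚ) ^ (3 * m) = 8 ^ m := by rw [pow_mul]; norm_num
    rw [a, b]
  rw [h2]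
  have h3 : ((2 * M : ℕ) : ℚ) ^ m ≠ 0 := pow_ne_zero _ hM'
  field_simp

end Pool.Agent.Helper96.Flow
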