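import Mathlib
import Pool.Agent.Helper96.FlowMain
import Pool.Agent.Helper96.FlowDefs

open Finset Polynomial

namespace Pool.Agent.Helper96.Flow

/-- coefficients of the powers of bser as polynomials in the exponent. -/
noncomputable def dP : ℕ → ℚ[X]
  | 0 => 1
  | k + 1 => C (((k : ℚ) + 1)⁻¹) * ∑ j : Fin (k + 1),
      (C (((j : ℕ) : ℚ) + 1) * X - C ((k : ℚ) - ((j : ℕ) : ℚ))) * C (bb ((j : ℕ) + 1)) * dP (k - (j : ℕ))
termination_by k => k
decreasing_by omega

theorem dP_zero : dP 0 = 1 := by rw [dP]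

theorem dP_succ_eval (q : ℚ) (k : ℕ) : ((k : ℚ) + 1) * (dP (k + 1)).eval q
    = ∑ j ∈ range (k + 1), (((j : ℚ) + 1) * q - ((k : ℚ) - j)) * bb (j + 1) * (dP (k - j)).eval q := by
  rw [dP, eval_mul, eval_C, ← mul_assoc, mul_inv_cancel₀ (by positivity), one_mul, eval_finsetSum,
    Finset.sum_range]
  apply Finset.sum_congr rfl
  intro j _
  simp only [eval_mul, eval_sub, eval_C, eval_X]

theorem bser_const : PowerSeries.constantCoeff bser = 1 := by
  rw [← PowerSeries.coeff_zero_eq_constantCoeff_apply, bser, PowerSeries.coeff_mk, bb]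
  simp

theorem dP_nat (N k : ℕ) : (dP k).eval (N : ℚ) = PowerSeries.coeff k (bser ^ N) := by
  induction k using Nat.strong_induction_on with
  | _ k ih =>
    rcases k with _ | k
    · rw [dP_zero, eval_one, PowerSeries.coeff_zero_eq_constantCoeff_apply, map_pow, bser_const, one_pow]
    · have h1 := dP_succ_eval (N : ℚ) k
      have h2 := miller bser bser_const N k
      have h3 : ((k : ℚ) + 1) ≠ 0 := by positivity
      apply mul_left_cancel₀ h3
      rw [h1, h2]
      apply Finset.sum_congr rfl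
      intro j hj
      rw [ih (k - j) (by omega), bser, PowerSeries.coeff_mk]

/-- the inner sums as polynomials. -/
noncomputable def rhoP (j k : ℕ) : ℚ[X] :=
  ∑ i ∈ Finset.range (2 * j + 1),
    C ((12 : ℚ) ^ i * 2 ^ (2 * j - i)) * (∏ s ∈ Finset.range i, (C (3 * (k : ℚ) - 1) + C (1 / 2) * X + C (s : ℚ)))
      * C (1 / (i.factorial : ℚ)
      * ((6 * j - 2 * i).factorial : ℚ) / (((2 * j - i).factorial : ℚ) * ((3 * j - i).factorial : ℚ)))

theorem rhoP_eval (q : ℚ) (j k : ℕ) : (rhoP j k).eval q = rho q j k := by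
  rw [rhoP, rho, eval_finsetSum]
  apply Finset.sum_congr rfl
  intro i _
  rw [eval_mul, eval_mul, eval_C, eval_C, eval_prod]
  have : ∏ s ∈ range i, eval q (C (3 * (k : ℚ) - 1) + C (1 / 2) * X + C (s : ℚ))
      = ∏ s ∈ range i, (3 * (k : ℚ) - 1 + q / 2 + s) := by
    apply Finset.prod_congr rfl
    intro s _
    simp only [eval_add, eval_mul, eval_C, eval_X]
    ring
  rw [this]
  ring

/-- the edge maps of a list of edges. -/
def lsrc {V : Type} (L : List (V × V)) (e : Fin L.length) : V := (L.get e).1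
def ltgt {V : Type} (L : List (V × V)) (e : Fin L.length) : V := (L.get e).2

/-- a flow polynomial of the graph given by a list of edges. -/
noncomputable def QL {V : Type} [Fintype V] [DecidableEq V] (L : List (V × V)) : ℤ[X] :=
  Classical.choose (exists_flowPoly (lsrc L) (ltgt L))

theorem QL_spec {V : Type} [Fintype V] [DecidableEq V] (L : List (V × V)) (k : ℕ) (hk : 1 ≤ k) :
    (QL L).eval (k : ℤ) = (numNZ (lsrc L) (ltgt L) k : ℤ) :=
  Classical.choose_spec (exists_flowPoly (lsrc L) (ltgt L)) k hk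

theorem QL_potts (n N : ℕ) (hN : 1 ≤ N) (L : List (Fin n × Fin n)) :
    (N : ℚ) ^ n * ((QL L).map (Int.castRingHom ℚ)).eval (N : ℚ)
      = ∑ σ : Fin n → Fin N, (L.map (wt N σ)).prod := by
  have h := potts (lsrc L) (ltgt L) N hN
  rw [← QL_spec L N hN, Fintype.card_fin] at h
  have h1 : ((QL L).map (Int.castRingHom ℚ)).eval (N : ℚ) = (((QL L).eval (N : ℤ) : ℤ) : ℚ) := by
    rw [show (N : ℚ) = (Int.castRingHom ℚ) (N : ℤ) by simp, Polynomial.eval_map, Polynomial.eval₂_at_apply]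
    simp
  rw [h1]
  have h2 := congrArg (fun z : ℤ => (z : ℚ)) h
  push_cast at h2
  rw [h2]
  apply Finset.sum_congr rfl
  intro σ _
  rw [← Fin.prod_univ_fun_getElem]
  apply Finset.prod_congr rfl
  intro e _
  rw [wt, lsrc, ltgt]
  rfl

theorem sum_eval (n : ℕ) (q : ℚ) (l : List (List (Fin n × Fin n))) :
    ((l.map (fun L => (QL L).map (Int.castRingHom ℚ))).sum).eval q
      = (l.map (fun L => ((QL L).map (Int.castRingHom ℚ)).eval q)).sum := by
  induction l with
  | nil => simp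
  | cons x xs ih => simp [ih]

theorem poly_identity (m : ℕ) (hm : 1 ≤ m) (q : ℚ) :
    (((pairings (3 * m) (hlist (2 * m))).map (fun L => ((QL L).map (Int.castRingHom ℚ)).eval q)).sum)
      = ((2 * m).factorial : ℚ) / 8 ^ m *
        ∑ k ∈ range (m + 1), (-1) ^ (m - k) * q ^ k * (dP k).eval q * rho q (m - k) k := by
  have hP : ((pairings (3 * m) (hlist (2 * m))).map (fun L => (QL L).map (Int.castRingHom ℚ))).sum
      = C (((2 * m).factorial : ℚ) / 8 ^ m) *
        ∑ k ∈ range (m + 1), C ((-1 : ℚ) ^ (m - k)) * X ^ k * dP k * rhoP (m - k) k := by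
    apply Polynomial.eq_of_infinite_eval_eq
    apply Set.infinite_of_injective_forall_mem (f := fun M : ℕ => ((2 * (M + 2) : ℕ) : ℚ))
    · intro a b hab
      have hab' : ((2 * (a + 2) : ℕ) : ℚ) = ((2 * (b + 2) : ℕ) : ℚ) := hab
      have : 2 * (a + 2) = 2 * (b + 2) := by exact_mod_cast hab'
      omega
    · intro M
      rw [Set.mem_ofPred_eq, sum_eval (2 * m)]
      have h := main_formula (M + 2) m (by omega) hm
      have hN : ((2 * (M + 2) : ℕ) : ℚ) ^ (2 * m) ≠ 0 := by positivity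
      apply mul_left_cancel₀ hN
      rw [← List.sum_map_mul_left]
      have h3 : (List.map (fun i => ((2 * (M + 2) : ℕ) : ℚ) ^ (2 * m) *
          eval ((2 * (M + 2) : ℕ) : ℚ) (Polynomial.map (Int.castRingHom ℚ) (QL i))) (pairings (3 * m) (hlist (2 * m))))
          = (pairings (3 * m) (hlist (2 * m))).map
            (fun L => ∑ σ : Fin (2 * m) → Fin (2 * (M + 2)), (L.map (wt (2 * (M + 2)) σ)).prod) := by
        apply List.map_congr_left
        intro L _
        exact QL_potts (2 * m) (2 * (M + 2)) (by omega) L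
      rw [h3, h, eval_mul, eval_C, eval_finsetSum]
      congr 2
      apply Finset.sum_congr rfl
      intro k _
      rw [eval_mul, eval_mul, eval_mul, eval_C, eval_pow, eval_X, rhoP_eval, dP_nat]
  have := congrArg (fun p : ℚ[X] => p.eval q) hP
  rw [sum_eval (2 * m), eval_mul, eval_C, eval_finsetSum] at this
  rw [this]
  congr 1
  apply Finset.sum_congr rfl
  intro k _
  rw [eval_mul, eval_mul, eval_mul, eval_C, eval_pow, eval_X, rhoP_eval]

theorem exists_neg (l : List ℚ) (h : l.sum < 0) : ∃ x ∈ l, x < 0 := by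
  by_contra hcon
  have hcon' : ∀ x ∈ l, 0 ≤ x := by
    intro x hx
    by_contra hx'
    exact hcon ⟨x, hx, not_le.mp hx'⟩
  exact absurd (List.sum_nonneg hcon') (not_le.mpr h)

/-- the numerical input. -/
def Neg (m : ℕ) (q : ℚ) : Prop := ∀ d : ℕ → ℚ, d 0 = 1 →
    (∀ k : ℕ, ((k : ℚ) + 1) * d (k + 1) = ∑ j ∈ Finset.range (k + 1),
      (((j : ℚ) + 1) * q - ((k : ℚ) - j)) * bb (j + 1) * d (k - j)) →
    ∑ k ∈ Finset.range (m + 1), (-1) ^ (m - k) * q ^ k * d k * rho q (m - k) k < 0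

theorem final (m : ℕ) (hm : 1 ≤ m) (q : ℚ) (hq : 6 < q) (hq7 : q < 7) (h : Neg m q) :
    ∃ (n k : ℕ) (src tgt : Fin k → Fin n) (Q : ℤ[X]),
      (∀ j : ℕ, 1 ≤ j → Q.eval (j : ℤ) = (numNZ src tgt j : ℤ)) ∧ Q ≠ 0 ∧
      ∃ x : ℝ, 6 < x ∧ aeval x Q = 0 := by
  have h1 := h (fun k => (dP k).eval q) (by simp [dP_zero]) (dP_succ_eval q)
  have h2 := poly_identity m hm q
  have h3 : (((pairings (3 * m) (hlist (2 * m))).map
      (fun L => ((QL L).map (Int.castRingHom ℚ)).eval q)).sum) < 0 := by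
    rw [h2]
    exact mul_neg_of_pos_of_neg (by positivity) h1
  obtain ⟨y, hy, hy0⟩ := exists_neg _ h3
  rw [List.mem_map] at hy
  obtain ⟨L, _, rfl⟩ := hy
  have hR : ∀ x : ℚ, aeval ((x : ℚ) : ℝ) (QL L) = ((((QL L).map (Int.castRingHom ℚ)).eval x : ℚ) : ℝ) := by
    intro x
    rw [Polynomial.eval_map, Polynomial.aeval_def, ← Rat.coe_castHom, Polynomial.hom_eval₂]
    congr 1
  have hneg : aeval ((q : ℚ) : ℝ) (QL L) < 0 := by
    rw [hR]; exact_mod_cast hy0
  have h7 : 0 ≤ aeval ((7 : ℚ) : ℝ) (QL L) := by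
    rw [hR]
    have h8 : ((QL L).map (Int.castRingHom ℚ)).eval (7 : ℚ) = (((QL L).eval (7 : ℤ) : ℤ) : ℚ) := by
      rw [show (7 : ℚ) = (Int.castRingHom ℚ) (7 : ℤ) by simp, Polynomial.eval_map, Polynomial.eval₂_at_apply]
      simp
    have h9 := QL_spec L 7 (by norm_num)
    rw [h8]
    have : (QL L).eval (7 : ℤ) = (numNZ (lsrc L) (ltgt L) 7 : ℤ) := by exact_mod_cast h9
    rw [this]
    exact_mod_cast Nat.zero_le _
  have hcont : ContinuousOn (fun x : ℝ => aeval x (QL L)) (Set.Icc ((q : ℚ) : ℝ) ((7 : ℚ) : ℝ)) :=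
    (Polynomial.continuous_aeval (QL L)).continuousOn
  have hle : ((q : ℚ) : ℝ) ≤ ((7 : ℚ) : ℝ) := by exact_mod_cast hq7.le
  have hiv := intermediate_value_Icc hle hcont
  obtain ⟨x, hx, hx0⟩ := hiv (show (0 : ℝ) ∈ Set.Icc _ _ from ⟨hneg.le, h7⟩)
  refine ⟨2 * m, L.length, lsrc L, ltgt L, QL L, QL_spec L, ?_, x, ?_, hx0⟩
  · intro h0
    rw [h0] at hneg
    simp at hneg
  · have : (6 : ℝ) < ((q : ℚ) : ℝ) := by exact_mod_cast hq
    linarith [hx.1]

end Pool.Agent.Helper96.Flow
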