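import Mathlib
import Pool.Agent.Helper96.FlowAssemble
import Pool.Agent.Helper96.FlowCert

open Polynomial

namespace Pool.Agent.Helper96.Flow

theorem neg_holds : Neg 442 (385 / 64) := by
  intro d hd0 hd
  exact Cert.neg_cert d hd0 hd

/-- There is a finite multigraph whose flow polynomial is nonzero and has a real root above 6. -/
theorem exists_multigraph : ∃ (n k : ℕ) (src tgt : Fin k → Fin n) (Q : ℤ[X]),
      (∀ j : ℕ, 1 ≤ j → Q.eval (j : ℤ) = (numNZ src tgt j : ℤ)) ∧ Q ≠ 0 ∧
      ∃ x : ℝ, 6 < x ∧ aeval x Q = 0 :=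
  final 442 (by norm_num) (385 / 64) (by norm_num) (by norm_num) neg_holds

end Pool.Agent.Helper96.Flow
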