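import Mathlib
import Pool.Agent.Helper96.FlowDefs

/-!
The subset expansion of the flow polynomial of a simple graph, and the passage from a
multigraph to a simple graph by subdividing every edge twice.
-/

open Finset Polynomial

namespace Pool.Agent.Helper96.Flow

section components

variable {V : Type} (H : SimpleGraph V)

/-- maps constant on the connected components. -/
noncomputable def compEquiv (α : Type) :
    {σ : V → α // ∀ u v, H.Adj u v → σ u = σ v} ≃ (H.ConnectedComponent → α) where
  toFun σ := SimpleGraph.ConnectedComponent.lift σ.1 (by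
    intro v w p _
    induction p with
    | nil => rfl
    | cons h p ih => exact (σ.2 _ _ h).trans (ih (by simp_all)))
  invFun g := ⟨fun v => g (H.connectedComponentMk v), fun u v h => by
    change g (H.connectedComponentMk u) = g (H.connectedComponentMk v)
    rw [SimpleGraph.ConnectedComponent.connectedComponentMk_eq_of_adj h]⟩
  left_inv σ := by
    apply Subtype.ext
    funext v
    rfl
  right_inv g := by
    funext c
    induction c using SimpleGraph.ConnectedComponent.ind with
    | _ v => rfl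

end components

section subsets

variable {V : Type} [Fintype V] [DecidableEq V]

omit [Fintype V] in
theorem const_iff {α : Type} (A : Finset (Sym2 V)) (σ : V → α) :
    (∀ u v, (SimpleGraph.fromEdgeSet (A : Set (Sym2 V))).Adj u v → σ u = σ v) ↔
      ∀ e ∈ A, (Sym2.map σ e).IsDiag := by
  constructor
  · intro h e he
    induction e using Sym2.ind with
    | _ u v =>
      rw [Sym2.map_mk, Sym2.mk_isDiag_iff]
      by_cases huv : u = v
      · rw [huv]
      · exact h u v (by rw [SimpleGraph.fromEdgeSet_adj]; exact ⟨by exact_mod_cast he, huv⟩)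
  · intro h u v huv
    rw [SimpleGraph.fromEdgeSet_adj] at huv
    have := h s(u, v) (by exact_mod_cast huv.1)
    rwa [Sym2.map_mk, Sym2.mk_isDiag_iff] at this

theorem card_const (A : Finset (Sym2 V)) (N : ℕ) :
    ((univ.filter (fun σ : V → Fin N => ∀ e ∈ A, (Sym2.map σ e).IsDiag)).card)
      = N ^ Nat.card (SimpleGraph.fromEdgeSet (A : Set (Sym2 V))).ConnectedComponent := by
  classical
  have h := Nat.card_congr (compEquiv (SimpleGraph.fromEdgeSet (A : Set (Sym2 V))) (Fin N))
  rw [Nat.card_fun, Nat.card_eq_fintype_card (α := Fin N), Fintype.card_fin] at h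
  rw [← h, Nat.card_eq_fintype_card, Fintype.card_subtype]
  congr 1
  apply Finset.filter_congr
  intro σ _
  exact (const_iff A σ).symm

omit [DecidableEq V] in
theorem card_le_add (A : Finset (Sym2 V)) :
    Fintype.card V ≤ A.card + Nat.card (SimpleGraph.fromEdgeSet (A : Set (Sym2 V))).ConnectedComponent := by
  classical
  let φ : (V → ZMod 2) → (A → ZMod 2) := fun σ e =>
    Sym2.lift ⟨fun u v => σ u + σ v, fun u v => add_comm _ _⟩ e.1
  have hφ : ∀ σ τ, φ (σ - τ) = φ σ - φ τ := by
    intro σ τ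
    funext e
    obtain ⟨e, he⟩ := e
    induction e using Sym2.ind with
    | _ u v =>
      simp only [φ, Sym2.lift_mk, Pi.sub_apply]
      ring
  let s : (A → ZMod 2) → (V → ZMod 2) := Function.invFun φ
  have hs : ∀ σ, φ (s (φ σ)) = φ σ := fun σ => Function.invFun_eq ⟨σ, rfl⟩
  let F : (V → ZMod 2) → (A → ZMod 2) × {σ : V → ZMod 2 //
      ∀ u v, (SimpleGraph.fromEdgeSet (A : Set (Sym2 V))).Adj u v → σ u = σ v} :=
    fun σ => (φ σ, ⟨σ - s (φ σ), by
      intro u v huv
      have h1 : φ (σ - s (φ σ)) = 0 := by rw [hφ, hs, sub_self]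
      rw [SimpleGraph.fromEdgeSet_adj] at huv
      have h2 := congrFun h1 ⟨s(u, v), by exact_mod_cast huv.1⟩
      simp only [φ, Sym2.lift_mk, Pi.zero_apply] at h2
      rw [add_eq_zero_iff_eq_neg, ZMod.neg_eq_self_mod_two] at h2
      exact h2⟩)
  have hinj : Function.Injective F := by
    intro σ τ hστ
    have h1 : φ σ = φ τ := congrArg Prod.fst hστ
    have h2 : σ - s (φ σ) = τ - s (φ τ) := congrArg (fun x => x.2.1) hστ
    rw [h1] at h2
    exact sub_left_injective h2
  have h := Nat.card_le_card_of_injective F hinj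
  rw [Nat.card_prod, Nat.card_congr (compEquiv (SimpleGraph.fromEdgeSet (A : Set (Sym2 V))) (ZMod 2)),
    Nat.card_fun, Nat.card_fun, Nat.card_fun, Nat.card_zmod, ← pow_add, Nat.card_eq_fintype_card,
    Nat.card_eq_fintype_card (α := A), Fintype.card_coe] at h
  exact (Nat.pow_le_pow_iff_right (by norm_num)).1 h

/-- The subset expansion of the flow polynomial of a simple graph. -/
noncomputable def flowP (G : SimpleGraph V) [DecidableRel G.Adj] : ℝ[X] :=
  ∑ A ∈ G.edgeFinset.powerset,
          Polynomial.C ((-1 : ℝ) ^ (G.edgeFinset.card - A.card)) *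
            Polynomial.X ^ (A.card + Nat.card (SimpleGraph.fromEdgeSet (A : Set (Sym2 V))).ConnectedComponent
              - Fintype.card V)

theorem flowP_potts (G : SimpleGraph V) [DecidableRel G.Adj] (N : ℕ) :
    (N : ℝ) ^ Fintype.card V * (flowP G).eval (N : ℝ)
      = ∑ σ : V → Fin N, ∏ e ∈ G.edgeFinset, ((if (Sym2.map σ e).IsDiag then (N : ℝ) else 0) - 1) := by
  classical
  have h1 : ∀ σ : V → Fin N, ∏ e ∈ G.edgeFinset, ((if (Sym2.map σ e).IsDiag then (N : ℝ) else 0) - 1)
     = ∑ A ∈ G.edgeFinset.powerset, (∏ e ∈ A, (if (Sym2.map σ e).IsDiag then (N : ℝ) else 0))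
        * ∏ e ∈ G.edgeFinset \ A, (-1 : ℝ) := by
    intro σ
    rw [← Finset.prod_add]
    apply Finset.prod_congr rfl
    intro e _
    ring
  rw [flowP, eval_finsetSum, Finset.mul_sum]
  simp_rw [h1]
  rw [Finset.sum_comm]
  apply Finset.sum_congr rfl
  intro A hA
  have hAE : A ⊆ G.edgeFinset := Finset.mem_powerset.1 hA
  rw [← Finset.sum_mul, Finset.prod_const, Finset.card_sdiff_of_subset hAE]
  have h2 : ∀ σ : V → Fin N, (∏ e ∈ A, (if (Sym2.map σ e).IsDiag then (N : ℝ) else 0))
      = if (∀ e ∈ A, (Sym2.map σ e).IsDiag) then (N : ℝ) ^ A.card else 0 := by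
    intro σ
    rw [Finset.prod_ite_zero, Finset.prod_const]
    congr
  simp_rw [h2]
  rw [← Finset.sum_filter, Finset.sum_const, card_const, nsmul_eq_mul, eval_mul, eval_C, eval_pow, eval_X]
  have h3 := card_le_add A
  push_cast
  have h4 : (N : ℝ) ^ (A.card + Nat.card (SimpleGraph.fromEdgeSet (A : Set (Sym2 V))).ConnectedComponent)
      = (N : ℝ) ^ Fintype.card V *
        (N : ℝ) ^ (A.card + Nat.card (SimpleGraph.fromEdgeSet (A : Set (Sym2 V))).ConnectedComponent
              - Fintype.card V) := by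
    rw [← pow_add]
    congr 1
    omega
  rw [pow_add] at h4
  calc _ = (-1 : ℝ) ^ (G.edgeFinset.card - A.card) * ((N : ℝ) ^ Fintype.card V *
        (N : ℝ) ^ (A.card + Nat.card (SimpleGraph.fromEdgeSet (A : Set (Sym2 V))).ConnectedComponent
              - Fintype.card V)) := by ring
    _ = _ := by rw [← h4]; ring

end subsets

section subdivision

variable {V E : Type} [Fintype V] [DecidableEq V] [Fintype E] [DecidableEq E]

/-- the three edges replacing the edge e. -/
def sedge (src tgt : E → V) (p : E × Fin 3) : Sym2 (V ⊕ (E × Bool)) :=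
  if p.2 = 0 then s(Sum.inl (src p.1), Sum.inr (p.1, false))
  else if p.2 = 1 then s(Sum.inr (p.1, false), Sum.inr (p.1, true))
  else s(Sum.inr (p.1, true), Sum.inl (tgt p.1))

/-- the graph in which every edge is replaced by a path of length three. -/
def subdiv (src tgt : E → V) : SimpleGraph (V ⊕ (E × Bool)) :=
  SimpleGraph.fromEdgeSet (Set.range (sedge src tgt))

omit [Fintype V] [DecidableEq V] [Fintype E] [DecidableEq E] in
theorem sedge_injective (src tgt : E → V) : Function.Injective (sedge src tgt) := by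
  rintro ⟨e, i⟩ ⟨f, j⟩ h
  fin_cases i <;> fin_cases j <;> simp [sedge] at h ⊢ <;> simp_all

omit [Fintype V] [DecidableEq V] [Fintype E] [DecidableEq E] in
theorem sedge_not_diag (src tgt : E → V) (p : E × Fin 3) : ¬ (sedge src tgt p).IsDiag := by
  obtain ⟨e, i⟩ := p
  fin_cases i <;> simp [sedge]

theorem subdiv_edgeFinset (src tgt : E → V) [DecidableRel (subdiv src tgt).Adj] :
    (subdiv src tgt).edgeFinset = univ.image (sedge src tgt) := by
  ext x
  rw [SimpleGraph.mem_edgeFinset, subdiv, SimpleGraph.edgeSet_fromEdgeSet, Finset.mem_image]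
  constructor
  · rintro ⟨⟨p, hp⟩, _⟩
    exact ⟨p, Finset.mem_univ _, hp⟩
  · rintro ⟨p, _, rfl⟩
    exact ⟨⟨p, rfl⟩, sedge_not_diag src tgt p⟩

/-- restricting a map on the vertices of the subdivision. -/
def splitEquiv (α : Type) : (V ⊕ (E × Bool) → α) ≃ (V → α) × (E → α × α) where
  toFun σ := (fun v => σ (Sum.inl v), fun e => (σ (Sum.inr (e, false)), σ (Sum.inr (e, true))))
  invFun p := fun x => match x with
    | Sum.inl v => p.1 v
    | Sum.inr (e, false) => (p.2 e).1
    | Sum.inr (e, true) => (p.2 e).2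
  left_inv σ := by
    funext x
    rcases x with v | ⟨e, b⟩
    · rfl
    · cases b <;> rfl
  right_inv p := by
    obtain ⟨a, b⟩ := p
    rfl

theorem local_sum (N : ℕ) (s t : Fin N) :
    ∑ p : Fin N × Fin N, (((if s = p.1 then (N : ℝ) else 0) - 1) * ((if p.1 = p.2 then (N : ℝ) else 0) - 1)
      * ((if p.2 = t then (N : ℝ) else 0) - 1)) = (N : ℝ) ^ 2 * ((if s = t then (N : ℝ) else 0) - 1) := by
  have h1 : ∀ a t : Fin N, ∑ b : Fin N, ((if a = b then (N : ℝ) else 0) - 1) * ((if b = t then (N : ℝ) else 0) - 1)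
      = (N : ℝ) * ((if a = t then (N : ℝ) else 0) - 1) := by
    intro a t
    have h2 : ∀ b : Fin N, ((if a = b then (N : ℝ) else 0) - 1) * ((if b = t then (N : ℝ) else 0) - 1)
        = (if a = b then (N : ℝ) * (if b = t then (N : ℝ) else 0) else 0) - (if a = b then (N : ℝ) else 0)
          - (if b = t then (N : ℝ) else 0) + 1 := by
      intro b
      split_ifs <;> ring
    simp_rw [h2]
    rw [Finset.sum_add_distrib, Finset.sum_sub_distrib, Finset.sum_sub_distrib, Finset.sum_ite_eq,
      Finset.sum_ite_eq, Finset.sum_ite_eq', if_pos (Finset.mem_univ _), if_pos (Finset.mem_univ _),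
      if_pos (Finset.mem_univ _), Finset.sum_const, Finset.card_univ, Fintype.card_fin, nsmul_eq_mul]
    split_ifs <;> ring
  rw [Fintype.sum_prod_type]
  calc _ = ∑ a : Fin N, (N : ℝ) * (((if s = a then (N : ℝ) else 0) - 1) * ((if a = t then (N : ℝ) else 0) - 1)) := by
        apply Finset.sum_congr rfl
        intro a _
        rw [mul_left_comm, ← h1 a t, Finset.mul_sum]
        apply Finset.sum_congr rfl
        intro b _
        rw [mul_assoc]
    _ = _ := by
        rw [← Finset.mul_sum, h1 s t]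
        ring

theorem subdiv_potts (src tgt : E → V) [DecidableRel (subdiv src tgt).Adj] (N : ℕ) :
    ∑ σ : V ⊕ (E × Bool) → Fin N,
        ∏ e ∈ (subdiv src tgt).edgeFinset, ((if (Sym2.map σ e).IsDiag then (N : ℝ) else 0) - 1)
      = ((N : ℝ) ^ 2) ^ Fintype.card E *
        ∑ σ : V → Fin N, ∏ e : E, ((if σ (src e) = σ (tgt e) then (N : ℝ) else 0) - 1) := by
  classical
  rw [subdiv_edgeFinset]
  have h1 : ∀ σ : V ⊕ (E × Bool) → Fin N,
      ∏ e ∈ univ.image (sedge src tgt), ((if (Sym2.map σ e).IsDiag then (N : ℝ) else 0) - 1)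
      = ∏ e : E, (((if σ (Sum.inl (src e)) = σ (Sum.inr (e, false)) then (N : ℝ) else 0) - 1)
        * ((if σ (Sum.inr (e, false)) = σ (Sum.inr (e, true)) then (N : ℝ) else 0) - 1)
        * ((if σ (Sum.inr (e, true)) = σ (Sum.inl (tgt e)) then (N : ℝ) else 0) - 1)) := by
    intro σ
    rw [Finset.prod_image (fun x _ y _ h => sedge_injective src tgt h), Fintype.prod_prod_type]
    apply Finset.prod_congr rfl
    intro e _
    rw [Fin.prod_univ_three]
    simp [sedge]
  simp_rw [h1]
  have h3 : ∑ σ : V ⊕ (E × Bool) → Fin N,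
      ∏ e : E, (((if σ (Sum.inl (src e)) = σ (Sum.inr (e, false)) then (N : ℝ) else 0) - 1)
        * ((if σ (Sum.inr (e, false)) = σ (Sum.inr (e, true)) then (N : ℝ) else 0) - 1)
        * ((if σ (Sum.inr (e, true)) = σ (Sum.inl (tgt e)) then (N : ℝ) else 0) - 1))
      = ∑ p : (V → Fin N) × (E → Fin N × Fin N),
      ∏ e : E, (((if p.1 (src e) = (p.2 e).1 then (N : ℝ) else 0) - 1)
        * ((if (p.2 e).1 = (p.2 e).2 then (N : ℝ) else 0) - 1)
        * ((if (p.2 e).2 = p.1 (tgt e) then (N : ℝ) else 0) - 1)) :=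
    Fintype.sum_equiv (splitEquiv (Fin N)) _ _ (fun σ => rfl)
  rw [h3, Fintype.sum_prod_type, Finset.mul_sum]
  apply Finset.sum_congr rfl
  intro σ _
  have h2 := Finset.prod_univ_sum (fun _ : E => (univ : Finset (Fin N × Fin N)))
    (fun e p => (((if σ (src e) = p.1 then (N : ℝ) else 0) - 1)
        * ((if p.1 = p.2 then (N : ℝ) else 0) - 1)
        * ((if p.2 = σ (tgt e) then (N : ℝ) else 0) - 1)))
  rw [Fintype.piFinset_univ] at h2
  rw [← h2]
  simp_rw [local_sum]
  rw [Finset.prod_mul_distrib, Finset.prod_const, Finset.card_univ]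

theorem flowP_subdiv (src tgt : E → V) [DecidableRel (subdiv src tgt).Adj] (Q : ℤ[X])
    (hQ : ∀ j : ℕ, 1 ≤ j → Q.eval (j : ℤ) = (numNZ src tgt j : ℤ)) :
    flowP (subdiv src tgt) = Q.map (Int.castRingHom ℝ) := by
  apply Polynomial.eq_of_infinite_eval_eq
  apply Set.infinite_of_injective_forall_mem (f := fun M : ℕ => ((M + 1 : ℕ) : ℝ))
  · intro a b hab
    have hab' : ((a + 1 : ℕ) : ℝ) = ((b + 1 : ℕ) : ℝ) := hab
    have : a + 1 = b + 1 := by exact_mod_cast hab'
    omega
  · intro M
    rw [Set.mem_ofPred_eq]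
    have h1 := flowP_potts (subdiv src tgt) (M + 1)
    rw [subdiv_potts] at h1
    have h2 := potts src tgt (M + 1) (by omega)
    rw [← hQ (M + 1) (by omega)] at h2
    have h3 := congrArg (fun z : ℤ => (z : ℝ)) h2
    have h4 : ((Q.map (Int.castRingHom ℝ)).eval (((M + 1 : ℕ) : ℝ))) = (((Q.eval ((M + 1 : ℕ) : ℤ) : ℤ)) : ℝ) := by
      rw [show (((M + 1 : ℕ) : ℝ)) = (Int.castRingHom ℝ) ((M + 1 : ℕ) : ℤ) by simp, Polynomial.eval_map,
        Polynomial.eval₂_at_apply]
      simp
    rw [h4]
    have h5 : (((M + 1 : ℕ) : ℝ)) ^ Fintype.card (V ⊕ (E × Bool)) ≠ 0 := by positivity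
    apply mul_left_cancel₀ h5
    rw [h1, Fintype.card_sum, Fintype.card_prod, Fintype.card_bool, pow_add, mul_comm (Fintype.card E) 2,
      pow_mul, mul_assoc, mul_left_comm]
    congr 1
    have h6 : (∑ σ : V → Fin (M + 1), ∏ e : E, ((if σ (src e) = σ (tgt e) then (((M + 1 : ℕ)) : ℝ) else 0) - 1))
        = (((∑ σ : V → Fin (M + 1), ∏ e : E, ((if σ (src e) = σ (tgt e) then (((M + 1 : ℕ)) : ℤ) else 0) - 1) : ℤ)) : ℝ) := by
      push_cast
      apply Finset.sum_congr rfl
      intro σ _
      apply Finset.prod_congr rfl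
      intro e _
      split_ifs <;> rfl
    rw [h6, ← h2]
    push_cast
    ring

end subdivision

end Pool.Agent.Helper96.Flow
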